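import Pool.Agent.Y232.CG.Bound

/-!
# Comparison of a trigonometric polynomial with an analytic function
-/

set_option autoImplicit false

namespace Pool.Agent.Y232.CG

open Filter Topology Metric Set MeasureTheory Pool.Agent.W709.VC Pool.Agent.W588.HT
open Pool.Agent.W711.HT (Rc)
open scoped Real Interval

theorem nd_re (N : ℕ) (w : ℂ) : (nd N w).re = π * (2 * w.re + 1 - N) / N := by
  unfold nd
  rw [Complex.div_natCast_re, Complex.re_ofReal_mul]
  simp

theorem nd_im (N : ℕ) (w : ℂ) : (nd N w).im = 2 * π * w.im / N := by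
  unfold nd
  rw [Complex.div_natCast_im, Complex.im_ofReal_mul]
  simp
  ring

theorem nd_cont (N : ℕ) : Continuous (nd N) := by
  unfold nd
  fun_prop

theorem nd_diff (N : ℕ) : Differentiable ℂ (nd N) := by
  unfold nd
  fun_prop

theorem interp_main {N a : ℕ} {r : ℝ} (hr : 0 < r) (hr1 : r ≤ 1) (hN : 0 < N) (ha : 2 * a < N)
    (hr2 : r ≤ π * (N - 2 * a) / N) (hr3 : π * (N - 2 * a) / N ≤ 2 * r) (hNr : 2 ≤ N * r)
    {F B : ℂ → ℂ} {V : Set ℂ} (hV : IsOpen V) (hB : DifferentiableOn ℂ B V)
    (hK : ∀ x : ℂ, |x.re| ≤ 2 * r → |x.im| ≤ r → x ∈ V) (hF : Rep N F)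
    {E₁ E₂ E₃ E₄ : ℝ} (hE1 : 0 ≤ E₁) (hE2 : 0 ≤ E₂) (hE3 : 0 ≤ E₃) (hE4 : 0 ≤ E₄)
    (h1 : ∀ j ∈ Finset.Ico a (N - a), ‖F (nd N j) - B (nd N j)‖ ≤ E₁)
    (h2 : ∀ j ∈ Finset.range N, j ∉ Finset.Ico a (N - a) → ‖F (nd N j)‖ ≤ E₂)
    (h3 : ∀ x : ℂ, |x.re| ≤ 2 * r → |x.im| = r → ‖B x‖ ≤ E₃)
    (h4 : ∀ x : ℂ, |x.re| = π * (N - 2 * a) / N → |x.im| ≤ r →
      ‖B x‖ ≤ E₄ * Real.exp (N * |x.im| / 2))
    {u : ℂ} (hu1 : |u.re| ≤ r / 2) (hu2 : |u.im| ≤ r / 2) :
    ‖F u - B u‖ ≤ Real.exp (N * |u.im| / 2) *
      (N * (E₁ + E₂) + 16 / r * (E₃ * Real.exp (-(N * r / 2)) + E₄)) := by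
  classical
  have hp := Real.pi_pos
  have hNR : (0 : ℝ) < N := by exact_mod_cast hN
  have hN' : (N : ℂ) ≠ 0 := by exact_mod_cast hN.ne'
  have hpC : (π : ℂ) ≠ 0 := by exact_mod_cast Real.pi_ne_zero
  have ha0 : (0 : ℝ) ≤ a := Nat.cast_nonneg a
  have haR : 2 * (a : ℝ) < N := by exact_mod_cast ha
  set b : ℕ := N - a with hb
  have hbR : (b : ℝ) = N - a := by
    rw [hb, Nat.cast_sub (by omega)]
  have hab : a < b := by omega
  have hbN : b ≤ N := by omega
  set H : ℝ := N * r / (2 * π) with hH
  have hHpos : 0 < H := by positivity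
  set r' : ℝ := π * (N - 2 * a) / N with hr'
  set z : ℂ := N * u / (2 * π) + (N - 1) / 2 with hz
  have hzu : nd N z = u := by
    unfold nd
    rw [hz]
    field_simp
    ring
  have hzre : z.re = N * u.re / (2 * π) + (N - 1) / 2 := by
    have e := congrArg Complex.re hzu
    rw [nd_re] at e
    rw [← e]
    field_simp
    ring
  have hzim : z.im = N * u.im / (2 * π) := by
    have e := congrArg Complex.im hzu
    rw [nd_im] at e
    rw [← e]
    field_simp
  have hNr' : N * r' = π * (N - 2 * a) := by rw [hr']; field_simp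
  have hu1' := abs_le.1 hu1
  have hu2' := abs_le.1 hu2
  have hz1 : (a : ℝ) - 1 / 2 < z.re := by
    rw [hzre]
    have e : (a : ℝ) - 1 / 2 = -(N * r') / (2 * π) + (N - 1) / 2 := by
      rw [hNr']; field_simp; ring
    rw [e]
    have : -(N * r') / (2 * π) < N * u.re / (2 * π) := by
      apply div_lt_div_of_pos_right _ (by positivity)
      nlinarith
    linarith
  have hz2 : z.re < (b : ℝ) - 1 / 2 := by
    rw [hzre, hbR]
    have e : (N : ℝ) - a - 1 / 2 = (N * r') / (2 * π) + (N - 1) / 2 := by
      rw [hNr']; field_simp; ring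
    rw [e]
    have : N * u.re / (2 * π) < (N * r') / (2 * π) := by
      apply div_lt_div_of_pos_right _ (by positivity)
      nlinarith
    linarith
  have hzim' : |z.im| ≤ H / 2 := by
    rw [hzim, hH, abs_div, abs_mul, Nat.abs_cast, abs_of_pos (show (0 : ℝ) < 2 * π by positivity)]
    have : (N : ℝ) * |u.im| ≤ N * (r / 2) := mul_le_mul_of_nonneg_left hu2 hNR.le
    calc (N : ℝ) * |u.im| / (2 * π) ≤ N * (r / 2) / (2 * π) :=
          div_le_div_of_nonneg_right this (by positivity)
      _ = N * r / (2 * π) / 2 := by ring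
  have hz3 : |z.im| < H := by linarith
  have hpz : π * |z.im| = N * |u.im| / 2 := by
    rw [hzim, abs_div, abs_mul, Nat.abs_cast, abs_of_pos (show (0 : ℝ) < 2 * π by positivity)]
    field_simp
  have hpH : π * H = N * r / 2 := by rw [hH]; field_simp
  -- the rectangle
  have hre : ∀ x : ℝ, (a : ℝ) - 1 / 2 ≤ x → x ≤ b - 1 / 2 → |π * (2 * x + 1 - N) / N| ≤ r' := by
    intro x hx1 hx2
    rw [abs_le, le_div_iff₀ hNR, div_le_iff₀ hNR]
    rw [hbR] at hx2
    constructor
    · have : -r' * N = -(π * (N - 2 * a)) := by rw [← hNr']; ring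
      rw [this]
      nlinarith
    · have : r' * N = π * (N - 2 * a) := by rw [← hNr']; ring
      rw [this]
      nlinarith
  have him : ∀ y : ℝ, |y| ≤ H → |2 * π * y / N| ≤ r := by
    intro y hy
    rw [abs_div, abs_mul, Nat.abs_cast, abs_of_pos (show (0 : ℝ) < 2 * π by positivity),
      div_le_iff₀ hNR]
    calc 2 * π * |y| ≤ 2 * π * H := mul_le_mul_of_nonneg_left hy (by positivity)
      _ = r * N := by rw [hH]; field_simp
  have cre : ∀ x y : ℝ, ((x : ℂ) + y * Complex.I).re = x := fun x y => by simp
  have cim : ∀ x y : ℝ, ((x : ℂ) + y * Complex.I).im = y := fun x y => by simp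
  have hK' : ∀ x y : ℝ, (a : ℝ) - 1 / 2 ≤ x → x ≤ b - 1 / 2 → |y| ≤ H →
      (x : ℂ) + y * Complex.I ∈ nd N ⁻¹' V := by
    intro x y hx1 hx2 hy
    apply hK
    · rw [nd_re, cre]
      exact (hre x hx1 hx2).trans hr3
    · rw [nd_im, cim]
      exact him y hy
  have hmain := interp_contour (B := fun w => B (nd N w)) (hV.preimage (nd_cont N))
    (hB.comp (nd_diff N).differentiableOn (fun w hw => hw)) hN hab hbN hHpos hK' hz1 hz2 hz3
  simp only [hzu] at hmain
  have hdn : ∀ j : ℕ, 2 * π / N * (z - j) = u - nd N j := by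
    intro j
    rw [← hzu]
    unfold nd
    field_simp
    ring
  simp only [hdn] at hmain
  -- the difference
  set G : ℕ → ℂ := fun j => if j ∈ Finset.Ico a b then F (nd N j) - B (nd N j) else F (nd N j)
    with hG
  have hGb : ∀ j ∈ Finset.range N, ‖G j‖ ≤ E₁ + E₂ := by
    intro j hj
    simp only [hG]
    split_ifs with h
    · linarith [h1 j h]
    · linarith [h2 j hj h]
  have hdiff : F u - B u = 1 / N * ∑ j ∈ Finset.range N, G j * DN N (u - nd N j) +
      rect (fun w => B (nd N w) * RK N z w) (a - 1 / 2) (b - 1 / 2) (-H) H := by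
    have e1 : ∑ j ∈ Finset.range N, G j * DN N (u - nd N j) =
        ∑ j ∈ Finset.range N, F (nd N j) * DN N (u - nd N j) -
          ∑ j ∈ Finset.Ico a b, B (nd N j) * DN N (u - nd N j) := by
      have e2 : ∑ j ∈ Finset.Ico a b, B (nd N j) * DN N (u - nd N j) =
          ∑ j ∈ Finset.range N, if j ∈ Finset.Ico a b then B (nd N j) * DN N (u - nd N j) else 0 := by
        rw [← Finset.sum_filter]
        refine Finset.sum_congr ?_ fun _ _ => rfl
        ext j
        simp only [Finset.mem_Ico, Finset.mem_filter, Finset.mem_range]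
        constructor
        · intro h; exact ⟨by omega, h⟩
        · intro h; exact h.2
      rw [e2, ← Finset.sum_sub_distrib]
      refine Finset.sum_congr rfl fun j _ => ?_
      simp only [hG]
      split_ifs
      · ring
      · ring
    rw [e1, mul_sub, hmain, ← hF u]
    ring
  have hA : ‖(1 / N : ℂ) * ∑ j ∈ Finset.range N, G j * DN N (u - nd N j)‖ ≤
      Real.exp (N * |u.im| / 2) * (N * (E₁ + E₂)) := by
    rw [norm_mul, norm_div, norm_one, Complex.norm_natCast]
    have e1 : ‖∑ j ∈ Finset.range N, G j * DN N (u - nd N j)‖ ≤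
        ∑ j ∈ Finset.range N, (E₁ + E₂) * (N * Real.exp (N * |u.im| / 2)) := by
      refine (norm_sum_le _ _).trans (Finset.sum_le_sum fun j hj => ?_)
      rw [norm_mul]
      refine mul_le_mul (hGb j hj) ?_ (norm_nonneg _) (by linarith)
      have := norm_DN_le hN (u - nd N j)
      have e2 : (u - nd N j).im = u.im := by
        rw [Complex.sub_im, nd_im, Complex.natCast_im]; ring
      rwa [e2] at this
    rw [Finset.sum_const, Finset.card_range, nsmul_eq_mul] at e1
    calc 1 / (N : ℝ) * ‖∑ j ∈ Finset.range N, G j * DN N (u - nd N j)‖ ≤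
        1 / (N : ℝ) * (N * ((E₁ + E₂) * (N * Real.exp (N * |u.im| / 2)))) :=
          mul_le_mul_of_nonneg_left e1 (by positivity)
      _ = Real.exp (N * |u.im| / 2) * (N * (E₁ + E₂)) := by field_simp
  set X : ℝ := Real.exp (N * |u.im| / 2) with hX
  have hXpos : 0 < X := Real.exp_pos _
  have hRr : ‖rect (fun w => B (nd N w) * RK N z w) (a - 1 / 2) (b - 1 / 2) (-H) H‖ ≤
      X * (16 / r * (E₃ * Real.exp (-(N * r / 2)) + E₄)) := by
    have hrect := rect_le (f := fun w => B (nd N w) * RK N z w) (a := (a : ℝ) - 1 / 2)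
      (b := b - 1 / 2) (c := -H) (d := H) (M₁ := E₃ * (8 / (N * r) * (X * Real.exp (-(N * r / 2)))))
      (M₂ := E₄ * (8 / (N * r) * X)) (by rw [hbR]; linarith) (by linarith) ?_ ?_
    · refine hrect.trans ?_
      have e1 : 2 * (((b : ℝ) - 1 / 2) - (a - 1 / 2)) ≤ 2 * N := by rw [hbR]; linarith
      have e2 : 2 * (H - -H) ≤ 2 * N := by
        have : H ≤ N / 2 := by
          rw [hH, div_le_div_iff₀ (by positivity) (by norm_num)]
          nlinarith [Real.pi_gt_three]
        linarith
      have f1 : 0 ≤ E₃ * (8 / (N * r) * (X * Real.exp (-(N * r / 2)))) := by positivity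
      have f2 : 0 ≤ E₄ * (8 / (N * r) * X) := by positivity
      calc 2 * (((b : ℝ) - 1 / 2) - (a - 1 / 2)) * (E₃ * (8 / (N * r) * (X * Real.exp (-(N * r / 2))))) +
            2 * (H - -H) * (E₄ * (8 / (N * r) * X)) ≤
            2 * N * (E₃ * (8 / (N * r) * (X * Real.exp (-(N * r / 2))))) +
            2 * N * (E₄ * (8 / (N * r) * X)) :=
              add_le_add (mul_le_mul_of_nonneg_right e1 f1) (mul_le_mul_of_nonneg_right e2 f2)
        _ = X * (16 / r * (E₃ * Real.exp (-(N * r / 2)) + E₄)) := by field_simp; ring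
    · -- horizontal sides
      have key : ∀ x y : ℝ, (a : ℝ) - 1 / 2 ≤ x → x ≤ b - 1 / 2 → |y| = H →
          ‖B (nd N (x + y * Complex.I)) * RK N z (x + y * Complex.I)‖ ≤
            E₃ * (8 / (N * r) * (X * Real.exp (-(N * r / 2)))) := by
        intro x y hx1 hx2 hy
        rw [norm_mul]
        have k1 : ‖B (nd N (x + y * Complex.I))‖ ≤ E₃ := by
          apply h3
          · rw [nd_re, cre]
            exact (hre x hx1 hx2).trans hr3
          · rw [nd_im, cim, abs_div, abs_mul, Nat.abs_cast,
              abs_of_pos (show (0 : ℝ) < 2 * π by positivity), hy, hH]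
            field_simp
        have k2 := RK_hor hN (z := z) (w := (x : ℂ) + y * Complex.I) (H := H) (δ := r / 4)
          (by rw [cim, hy]) (by rw [hpH]; linarith) (by positivity) (by
            rw [cim]
            have q1 : H - |z.im| ≤ |z.im - y| := by
              have := abs_sub_abs_le_abs_sub y z.im
              rw [abs_sub_comm y z.im, hy] at this
              exact this
            have q2 : H / 2 ≤ |z.im - y| := by linarith
            calc r / 4 = π * (H / 2) / N := by rw [hH]; field_simp; ring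
              _ ≤ π * |z.im - y| / N := by
                apply div_le_div_of_nonneg_right _ hNR.le
                exact mul_le_mul_of_nonneg_left q2 hp.le)
        rw [hpz, hpH] at k2
        refine mul_le_mul k1 (k2.trans (le_of_eq ?_)) (norm_nonneg _) hE3
        rw [← hX]
        field_simp
        ring
      intro x hx1 hx2
      refine ⟨?_, ?_⟩
      · have := key x (-H) hx1 hx2 (by rw [abs_neg, abs_of_pos hHpos])
        exact this
      · exact key x H hx1 hx2 (abs_of_pos hHpos)
    · -- vertical sides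
      have key : ∀ (x y : ℝ) (n : ℤ), x = n - 1 / 2 → |π * (2 * x + 1 - N) / N| = r' → |y| ≤ H →
          ‖B (nd N (x + y * Complex.I)) * RK N z (x + y * Complex.I)‖ ≤
            E₄ * (8 / (N * r) * X) := by
        intro x y n hxn hx hy
        rw [norm_mul]
        have k1 : ‖B (nd N (x + y * Complex.I))‖ ≤ E₄ * Real.exp (π * |y|) := by
          have k0 := h4 (nd N (x + y * Complex.I)) (by rw [nd_re, cre]; exact hx)
            (by rw [nd_im, cim]; exact him y hy)
          have e : N * |(nd N (x + y * Complex.I)).im| / 2 = π * |y| := by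
            rw [nd_im, cim, abs_div, abs_mul, Nat.abs_cast,
              abs_of_pos (show (0 : ℝ) < 2 * π by positivity)]
            field_simp
          rwa [e] at k0
        have k2 := RK_ver hN (z := z) (w := (x : ℂ) + y * Complex.I) (δ := r / 8) (n := n)
          (by rw [cre, hxn]) (by positivity) (by
            rw [cre]
            have e : π * (z.re - x) / N = (u.re - π * (2 * x + 1 - N) / N) / 2 := by
              rw [hzre]; field_simp; ring
            rw [e]
            set x' := π * (2 * x + 1 - N) / N with hx'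
            have q1 : r / 4 ≤ |(u.re - x') / 2| := by
              rw [abs_div, abs_of_pos (show (0 : ℝ) < 2 by norm_num)]
              have := abs_sub_abs_le_abs_sub x' u.re
              rw [abs_sub_comm x' u.re, hx] at this
              linarith
            have q2 : |(u.re - x') / 2| ≤ π / 2 := by
              rw [abs_div, abs_of_pos (show (0 : ℝ) < 2 by norm_num)]
              have := abs_sub u.re x'
              rw [hx] at this
              linarith [Real.pi_gt_three]
            have q3 : |Real.sin ((u.re - x') / 2)| = Real.sin |(u.re - x') / 2| := by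
              have q0 : 0 ≤ Real.sin |(u.re - x') / 2| :=
                Real.sin_nonneg_of_nonneg_of_le_pi (abs_nonneg _) (by linarith)
              rcases abs_cases ((u.re - x') / 2) with ⟨h, -⟩ | ⟨h, -⟩
              · rw [h] at q0 ⊢; exact abs_of_nonneg q0
              · rw [h] at q0 ⊢
                rw [Real.sin_neg] at q0 ⊢
                exact abs_of_nonpos (by linarith)
            rw [q3]
            refine le_trans ?_ (Real.mul_le_sin (abs_nonneg _) q2)
            have q4 : 2 / π * (r / 4) ≤ 2 / π * |(u.re - x') / 2| :=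
              mul_le_mul_of_nonneg_left q1 (by positivity)
            refine le_trans ?_ q4
            rw [div_mul_div_comm, div_le_div_iff₀ (by norm_num) (by positivity)]
            nlinarith [Real.pi_lt_four])
        rw [hpz, cim] at k2
        calc ‖B (nd N (x + y * Complex.I))‖ * ‖RK N z (x + y * Complex.I)‖ ≤
            (E₄ * Real.exp (π * |y|)) *
              (1 / (N * (r / 8)) * (X * Real.exp (-(π * |y|)))) :=
                mul_le_mul k1 k2 (norm_nonneg _) (by positivity)
          _ = E₄ * (8 / (N * r) * X) * (Real.exp (π * |y|) * Real.exp (-(π * |y|))) := by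
                field_simp
          _ = E₄ * (8 / (N * r) * X) := by
                rw [← Real.exp_add, add_neg_cancel, Real.exp_zero, mul_one]
      intro y hy1 hy2
      have hy : |y| ≤ H := abs_le.2 ⟨hy1, hy2⟩
      have hr'pos : 0 < r' := by linarith
      refine ⟨?_, ?_⟩
      · have := key ((b : ℝ) - 1 / 2) y b (by push_cast; ring) (by
          have : π * (2 * ((b : ℝ) - 1 / 2) + 1 - N) / N = r' := by
            rw [hbR, hr']; ring
          rw [this, abs_of_pos hr'pos]) hy
        exact this
      · have := key ((a : ℝ) - 1 / 2) y a (by push_cast; ring) (by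
          have : π * (2 * ((a : ℝ) - 1 / 2) + 1 - N) / N = -r' := by
            rw [hr']; ring
          rw [this, abs_neg, abs_of_pos hr'pos]) hy
        exact this
  rw [hdiff]
  refine (norm_add_le _ _).trans ((add_le_add hA hRr).trans (le_of_eq ?_))
  ring

end Pool.Agent.Y232.CG
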