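import Pool.Agent.W293.HT.CP1

/-!
# An even function with strictly negative second derivative
-/

set_option autoImplicit false

namespace Pool.Agent.Y232.CG

open Filter Topology Metric Set
open Pool.Agent.W711.HT (Rc)
open scoped Real

theorem Rc_sub {ρ σ : ℝ} (h : σ ≤ ρ) : Rc σ σ ⊆ Rc ρ ρ :=
  fun _ hx => ⟨hx.1.trans_le h, hx.2.trans_le h⟩

theorem ball_Rc {ρ σ : ℝ} {x : ℂ} (hx : x ∈ Rc ρ ρ) : closedBall x σ ⊆ Rc (ρ + σ) (ρ + σ) := by
  intro y hy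
  rw [mem_closedBall, dist_eq_norm] at hy
  have h1 := (Complex.abs_re_le_norm (y - x)).trans hy
  have h2 := (Complex.abs_im_le_norm (y - x)).trans hy
  rw [Complex.sub_re] at h1
  rw [Complex.sub_im] at h2
  refine ⟨?_, ?_⟩
  · have := abs_sub_abs_le_abs_sub y.re x.re
    have := hx.1
    linarith
  · have := abs_sub_abs_le_abs_sub y.im x.im
    have := hx.2
    linarith

theorem deriv_bd {φ : ℂ → ℂ} {ρ σ C : ℝ} (hσ : 0 < σ)
    (hφ : DifferentiableOn ℂ φ (Rc (ρ + σ) (ρ + σ))) (hb : ∀ x ∈ Rc (ρ + σ) (ρ + σ), ‖φ x‖ ≤ C)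
    {x : ℂ} (hx : x ∈ Rc ρ ρ) : ‖deriv φ x‖ ≤ C / σ := by
  have hs := ball_Rc (σ := σ) hx
  refine Complex.norm_deriv_le_of_forall_mem_sphere_norm_le hσ ?_ ?_
  · refine (hφ.mono hs).diffContOnCl_ball Subset.rfl
  · intro z hz
    exact hb z (hs (sphere_subset_closedBall hz))

theorem quadQ {φ : ℂ → ℂ} {ρ c C : ℝ} (hρ : 0 < ρ) (hφ : DifferentiableOn ℂ φ (Rc ρ ρ))
    (hb : ∀ x ∈ Rc ρ ρ, ‖φ x‖ ≤ C) (hev : ∀ x ∈ Rc ρ ρ, φ (-x) = φ x)
    (hc : ∀ x ∈ Rc ρ ρ, (deriv (deriv φ) x).re ≤ -c) {x : ℂ} (hx1 : |x.re| ≤ ρ / 4)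
    (hx2 : |x.im| ≤ ρ / 4) :
    (φ x).re ≤ (φ 0).re - c / 2 * x.re ^ 2 + 16 * C / ρ ^ 2 * (|x.re| + |x.im|) * |x.im| := by
  have hopen : IsOpen (Rc ρ ρ) := Pool.Agent.W293.HT.isOpen_Rc ρ ρ
  have hd1 : ∀ y ∈ Rc ρ ρ, DifferentiableAt ℂ φ y := fun y hy => hφ.differentiableAt
    (hopen.mem_nhds hy)
  have hφ' : DifferentiableOn ℂ (deriv φ) (Rc ρ ρ) := hφ.deriv hopen
  have hd2 : ∀ y ∈ Rc ρ ρ, DifferentiableAt ℂ (deriv φ) y := fun y hy => hφ'.differentiableAt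
    (hopen.mem_nhds hy)
  have h0mem : (0 : ℂ) ∈ Rc (ρ / 2) (ρ / 2) := by
    refine ⟨?_, ?_⟩ <;> simp <;> linarith
  have hC : 0 ≤ C := (norm_nonneg _).trans (hb 0 (Rc_sub (by linarith) h0mem))
  have e1 : ρ * 3 / 4 + ρ / 4 = ρ := by ring
  have b1 : ∀ y ∈ Rc (ρ * 3 / 4) (ρ * 3 / 4), ‖deriv φ y‖ ≤ C / (ρ / 4) := by
    intro y hy
    exact deriv_bd (by linarith) (by rw [e1]; exact hφ) (by rw [e1]; exact hb) hy
  have e2 : ρ / 2 + ρ / 4 = ρ * 3 / 4 := by ring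
  set M : ℝ := 16 * C / ρ ^ 2 with hM
  have hM0 : 0 ≤ M := by positivity
  have b2 : ∀ y ∈ Rc (ρ / 2) (ρ / 2), ‖deriv (deriv φ) y‖ ≤ M := by
    intro y hy
    have := deriv_bd (σ := ρ / 4) (by linarith) (by rw [e2]; exact hφ'.mono (Rc_sub (by linarith)))
      (by rw [e2]; exact b1) hy
    refine this.trans (le_of_eq ?_)
    rw [hM]; field_simp; norm_num
  -- the derivative at zero
  have hd0 : deriv φ 0 = 0 := by
    have h1 : HasDerivAt φ (deriv φ 0) 0 := (hd1 0 (Rc_sub (by linarith) h0mem)).hasDerivAt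
    have h2 : HasDerivAt (fun y => φ (-y)) (-deriv φ 0) 0 := by
      have h3 : HasDerivAt φ (deriv φ 0) (-0) := by rwa [neg_zero]
      have h6 : HasDerivAt (φ ∘ fun y => -y) (deriv φ 0 * -1) 0 :=
        HasDerivAt.comp (0 : ℂ) h3 (hasDerivAt_neg (0 : ℂ))
      exact h6.congr_deriv (by ring)
    have h3 : (fun y => φ (-y)) =ᶠ[𝓝 0] φ := by
      filter_upwards [hopen.mem_nhds (Rc_sub (by linarith) h0mem)] with y hy
      exact hev y hy
    have h4 := (h2.congr_of_eventuallyEq h3.symm).unique h1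
    have h5 : (2 : ℂ) * deriv φ 0 = 0 := by linear_combination -h4
    exact (mul_eq_zero.1 h5).resolve_left two_ne_zero
  have hconv : ∀ σ τ : ℝ, Convex ℝ {y : ℂ | |y.re| ≤ σ ∧ |y.im| ≤ τ} := by
    intro σ τ
    have : {y : ℂ | |y.re| ≤ σ ∧ |y.im| ≤ τ} =
        (Complex.reLm ⁻¹' Icc (-σ) σ) ∩ (Complex.imLm ⁻¹' Icc (-τ) τ) := by
      ext y
      simp [abs_le]
    rw [this]
    exact ((convex_Icc _ _).linear_preimage _).inter ((convex_Icc _ _).linear_preimage _)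
  have b3 : ∀ y : ℂ, |y.re| ≤ ρ / 4 → |y.im| ≤ ρ / 4 → ‖deriv φ y‖ ≤ M * ‖y‖ := by
    intro y hy1 hy2
    have hsub : ∀ w ∈ {y : ℂ | |y.re| ≤ ρ / 4 ∧ |y.im| ≤ ρ / 4}, w ∈ Rc (ρ / 2) (ρ / 2) :=
      fun w hw => ⟨by linarith [hw.1], by linarith [hw.2]⟩
    have := Convex.norm_image_sub_le_of_norm_deriv_le (f := deriv φ) (C := M)
      (s := {y : ℂ | |y.re| ≤ ρ / 4 ∧ |y.im| ≤ ρ / 4}) (x := 0) (y := y)
      (fun w hw => hd2 w (Rc_sub (by linarith) (hsub w hw))) (fun w hw => b2 w (hsub w hw))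
      (hconv _ _) ⟨by simp; linarith, by simp; linarith⟩ ⟨hy1, hy2⟩
    rwa [hd0, sub_zero, sub_zero] at this
  have b4 : ‖φ x - φ x.re‖ ≤ M * (|x.re| + |x.im|) * |x.im| := by
    have hsub : ∀ w ∈ {y : ℂ | |y.re| ≤ |x.re| ∧ |y.im| ≤ |x.im|},
        |w.re| ≤ ρ / 4 ∧ |w.im| ≤ ρ / 4 := fun w hw => ⟨hw.1.trans hx1, hw.2.trans hx2⟩
    have := Convex.norm_image_sub_le_of_norm_deriv_le (f := φ) (C := M * (|x.re| + |x.im|))
      (s := {y : ℂ | |y.re| ≤ |x.re| ∧ |y.im| ≤ |x.im|}) (x := (x.re : ℂ)) (y := x)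
      (fun w hw => hd1 w ⟨by linarith [(hsub w hw).1], by linarith [(hsub w hw).2]⟩)
      (fun w hw => ?_) (hconv _ _) ⟨by simp, by simp⟩ ⟨le_rfl, le_rfl⟩
    · refine this.trans (le_of_eq ?_)
      congr 1
      have e : x - x.re = x.im * Complex.I := by
        have := Complex.re_add_im x
        linear_combination -this
      rw [e, norm_mul, Complex.norm_I, mul_one, Complex.norm_real, Real.norm_eq_abs]
    · refine (b3 w (hsub w hw).1 (hsub w hw).2).trans (mul_le_mul_of_nonneg_left ?_ hM0)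
      refine (Complex.norm_le_abs_re_add_abs_im w).trans (add_le_add hw.1 hw.2)
  -- real points
  have mreal : ∀ t : ℝ, |t| ≤ ρ / 4 → (t : ℂ) ∈ Rc ρ ρ := by
    intro t ht
    refine ⟨?_, ?_⟩
    · simp only [Complex.ofReal_re]; linarith
    · simp only [Complex.ofReal_im, abs_zero]; exact hρ
  have b5 : (φ x.re).re ≤ (φ 0).re - c / 2 * x.re ^ 2 := by
    have := Pool.Agent.W293.HT.quad_bound (f := fun t : ℝ => (φ t).re)
      (f' := fun t : ℝ => (deriv φ t).re) (f'' := fun t : ℝ => (deriv (deriv φ) t).re)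
      (r := ρ / 4) (c := c) (x0 := 0) ?_ ?_ ?_ (by rw [abs_zero]; linarith) (by simp [hd0]) hx1
    · simpa using this
    · intro t ht
      exact (hd1 _ (mreal t ht)).hasDerivAt.real_of_complex
    · intro t ht
      exact (hd2 _ (mreal t ht)).hasDerivAt.real_of_complex
    · intro t ht
      exact hc _ (mreal t ht)
  have b6 : (φ x).re - (φ x.re).re ≤ M * (|x.re| + |x.im|) * |x.im| := by
    rw [← Complex.sub_re]
    exact (Complex.re_le_norm _).trans b4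
  linarith

end Pool.Agent.Y232.CG
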