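import Pool.Agent.Y472.G.Defs
import Pool.Agent.Y232.CG.Main
import Pool.Agent.Y232.CG.Quad

/-!
# Job CB3-G-MWZ: asymptotics of the kernel near `(0, 0, χ₀)` by interpolation between the nodes
-/

set_option autoImplicit false

namespace Pool.Agent.Y232.CG

open Filter Topology Metric Set
open Pool.Agent.W711.HT (Rc Rp phi Sd)
open Pool.Agent.Y472 (kh Tg Rz s0 szz dzz SDZ Zr)
open scoped Real

/-- the kernel is a trigonometric polynomial in the second variable -/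
theorem Rp_TP (N d : ℕ) : (fun x => Rp N d x) ∈ TP (2 * d) := by
  induction d with
  | zero =>
    have e : (fun x => Rp N 0 x) = fun _ => (1 : ℂ) := by
      funext x; simp [Rp]
    rw [e]
    exact TP_const 1
  | succ d ih =>
    have h := TP_mul ih ((phi N d : ℝ) : ℂ)
    have e : (fun x => Rp N (d + 1) x) = fun x => Rp N d x *
        (2 * Complex.cos x + 2 * Complex.cos ((phi N d : ℝ) : ℂ)) := by
      funext x
      rw [Rp, Finset.prod_range_succ, Complex.ofReal_cos]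
      rfl
    rw [e]
    exact h

theorem kh_TP (N : ℕ) (ψ χ : ℂ) : (fun x => kh N ψ x χ) ∈ TP (2 * ((N - 1) / 2)) := by
  have e : (fun x => kh N ψ x χ) = ∑ d ∈ Finset.range ((N - 1) / 2 + 1),
      (Rp N d ψ * Tg N d χ / (Sd N d : ℂ) ^ 2) • fun x => Rp N d x := by
    funext x
    rw [Finset.sum_apply, kh]
    refine Finset.sum_congr rfl fun d _ => ?_
    rw [Pi.smul_apply, smul_eq_mul]
    ring
  rw [e]
  refine Submodule.sum_mem _ fun d hd => Submodule.smul_mem _ _ ?_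
  exact TP_mono (by have := Finset.mem_range.1 hd; omega) (Rp_TP N d)

/-- the factor which makes the degrees match -/
noncomputable def ef (N : ℕ) (u x : ℂ) : ℂ :=
  if N % 2 = 0 then Complex.cos ((x - u) / 2) else 1

theorem ef_self (N : ℕ) (u : ℂ) : ef N u u = 1 := by
  unfold ef
  rw [sub_self, zero_div, Complex.cos_zero]
  split_ifs <;> rfl

theorem ef_diff (N : ℕ) (u : ℂ) : Differentiable ℂ (ef N u) := by
  unfold ef
  split_ifs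
  · fun_prop
  · fun_prop

theorem ef_le (N : ℕ) {u x : ℂ} (h : |x.im - u.im| ≤ 2) : ‖ef N u x‖ ≤ 3 := by
  unfold ef
  split_ifs
  · refine (cos_le_exp _).trans ?_
    have e : ((x - u) / 2).im = (x.im - u.im) / 2 := by
      rw [show (2 : ℂ) = ((2 : ℝ) : ℂ) by norm_num, Complex.div_ofReal_im, Complex.sub_im]
    rw [e, abs_div, abs_of_pos (show (0 : ℝ) < 2 by norm_num)]
    have h1 : |x.im - u.im| / 2 ≤ 1 := by linarith
    have h2 := Real.exp_one_lt_d9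
    exact (Real.exp_le_exp.2 h1).trans (by linarith)
  · simp

theorem F_Rep {N : ℕ} (hN : 0 < N) (ψ χ u : ℂ) : Rep N (fun x => kh N ψ x χ * ef N u x) := by
  apply rep_of_TP hN
  unfold ef
  split_ifs with h
  · have := TP_cos (kh_TP N ψ χ) u
    have e : 2 * ((N - 1) / 2) + 1 = N - 1 := by omega
    rwa [e] at this
  · have := kh_TP N ψ χ
    have e : 2 * ((N - 1) / 2) = N - 1 := by omega
    rw [e] at this
    simpa using this

/-- nearby values of the exponent -/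
theorem cont_box {χ₀ : ℂ} {ρ₀ c C : ℝ} {s dl : ℂ → ℂ → ℂ → ℂ} (S : SDZ χ₀ ρ₀ c C s dl) {η : ℝ}
    (hη : 0 < η) : ∃ ρ : ℝ, 0 < ρ ∧ ρ ≤ ρ₀ ∧ ∀ ψ ∈ Rc ρ ρ, ∀ ψ' ∈ Rc ρ ρ, ∀ χ ∈ Rz χ₀ ρ,
      |(s ψ ψ' χ).re - (s 0 0 χ₀).re| ≤ η := by
  have hop : IsOpen (Rc ρ₀ ρ₀ ×ˢ Rc ρ₀ ρ₀ ×ˢ Rz χ₀ ρ₀) := by
    refine (Pool.Agent.W293.HT.isOpen_Rc _ _).prod ((Pool.Agent.W293.HT.isOpen_Rc _ _).prod ?_)
    exact (Pool.Agent.W293.HT.isOpen_Rc ρ₀ ρ₀).preimage (by fun_prop : Continuous fun χ => χ - χ₀)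
  have hz : (0 : ℂ) ∈ Rc ρ₀ ρ₀ := Pool.Agent.W293.HT.zero_mem_Rc S.hρ.1 S.hρ.1
  have hmem : ((0 : ℂ), (0 : ℂ), χ₀) ∈ Rc ρ₀ ρ₀ ×ˢ Rc ρ₀ ρ₀ ×ˢ Rz χ₀ ρ₀ := by
    refine ⟨hz, hz, ?_⟩
    show χ₀ - χ₀ ∈ Rc ρ₀ ρ₀
    rw [sub_self]; exact hz
  have hc := S.san.continuousOn.continuousAt (hop.mem_nhds hmem)
  rw [Metric.continuousAt_iff] at hc
  obtain ⟨δ, hδ, hδ'⟩ := hc η hη
  refine ⟨min (δ / 2) ρ₀, lt_min (by linarith) S.hρ.1, min_le_right _ _, ?_⟩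
  intro ψ hψ ψ' hψ' χ hχ
  have key : ∀ x : ℂ, x ∈ Rc (min (δ / 2) ρ₀) (min (δ / 2) ρ₀) → ‖x‖ < δ := by
    intro x hx
    have h1 := Complex.norm_le_abs_re_add_abs_im x
    have h2 := hx.1.trans_le (min_le_left _ _)
    have h3 := hx.2.trans_le (min_le_left _ _)
    linarith
  have hd : dist ((ψ, ψ', χ) : ℂ × ℂ × ℂ) ((0 : ℂ), (0 : ℂ), χ₀) < δ := by
    rw [Prod.dist_eq, Prod.dist_eq]
    refine max_lt ?_ (max_lt ?_ ?_)
    · simpa using key ψ hψ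
    · simpa using key ψ' hψ'
    · rw [dist_eq_norm]; exact key _ hχ
  have h1 := (hδ' hd).le
  rw [dist_eq_norm] at h1
  rw [← Complex.sub_re]
  exact (Complex.abs_re_le_norm _).trans h1

/-- the final comparison -/
theorem fin_cmp {k A : ℂ} {L E : ℝ} (hA : A ≠ 0) (h : ‖k - A‖ ≤ ‖A‖ / 2)
    (h2 : |Real.log ‖A‖ - L| ≤ E) : k ≠ 0 ∧ |Real.log ‖k‖ - L| ≤ E + 1 := by
  have hA' : 0 < ‖A‖ := norm_pos_iff.2 hA
  have h3 : ‖A‖ / 2 ≤ ‖k‖ := by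
    have := norm_sub_norm_le A k
    rw [norm_sub_rev] at this
    linarith
  have h4 : ‖k‖ ≤ 2 * ‖A‖ := by
    have := norm_sub_norm_le k A
    linarith
  have hk' : 0 < ‖k‖ := by linarith
  refine ⟨norm_pos_iff.1 hk', ?_⟩
  have hl2 : Real.log 2 ≤ 1 := by
    have := Real.log_two_lt_d9
    linarith
  have h5 : Real.log ‖k‖ ≤ Real.log 2 + Real.log ‖A‖ := by
    rw [← Real.log_mul two_ne_zero hA'.ne']
    exact Real.log_le_log hk' h4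
  have h6 : Real.log ‖A‖ - Real.log 2 ≤ Real.log ‖k‖ := by
    rw [← Real.log_div hA'.ne' two_ne_zero]
    exact Real.log_le_log (by positivity) h3
  rw [abs_le] at h2 ⊢
  constructor <;> linarith [h2.1, h2.2]

theorem choose_r {ρ₀ ρ₁ M : ℝ} (hρ₀ : 0 < ρ₀) (hρ₁ : 0 < ρ₁) (hM0 : 0 < M) :
    ∃ r : ℝ, 0 < r ∧ r ≤ 1 ∧ 2 * r ≤ ρ₀ / 4 ∧ 2 * r < ρ₁ ∧ M * (3 * r) ≤ 1 / 4 := by
  have hq : 0 < 1 / (12 * (M + 1)) := by positivity
  have hq1 : 1 / (12 * (M + 1)) ≤ 1 := by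
    rw [div_le_one (by positivity)]; linarith
  have h2 : M * (3 * (1 / (12 * (M + 1)))) ≤ 1 / 4 := by
    rw [mul_one_div, ← mul_div_assoc, div_le_div_iff₀ (by positivity) (by norm_num)]
    nlinarith
  generalize 1 / (12 * (M + 1)) = q at *
  refine ⟨min (ρ₀ / 8) (min (ρ₁ / 4) q), by positivity, ?_, ?_, ?_, ?_⟩
  · exact (min_le_right _ _).trans ((min_le_right _ _).trans hq1)
  · have := min_le_left (ρ₀ / 8) (min (ρ₁ / 4) q)
    linarith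
  · have := (min_le_right (ρ₀ / 8) (min (ρ₁ / 4) q)).trans (min_le_left _ _)
    linarith
  · have h1 : min (ρ₀ / 8) (min (ρ₁ / 4) q) ≤ q := (min_le_right _ _).trans (min_le_right _ _)
    refine le_trans ?_ h2
    exact mul_le_mul_of_nonneg_left (mul_le_mul_of_nonneg_left h1 (by norm_num)) hM0.le

theorem choose_min4 {a b c d : ℝ} (ha : 0 < a) (hb : 0 < b) (hc : 0 < c) (hd : 0 < d) :
    ∃ η : ℝ, 0 < η ∧ 16 * η ≤ a ∧ 16 * η ≤ b ∧ 16 * η ≤ c ∧ 16 * η ≤ d := by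
  refine ⟨min (min a b) (min c d) / 16, by positivity, ?_, ?_, ?_, ?_⟩
  · have := (min_le_left (min a b) (min c d)).trans (min_le_left _ _)
    linarith
  · have := (min_le_left (min a b) (min c d)).trans (min_le_right _ _)
    linarith
  · have := (min_le_right (min a b) (min c d)).trans (min_le_left _ _)
    linarith
  · have := (min_le_right (min a b) (min c d)).trans (min_le_right _ _)
    linarith

theorem choose_large {r η ε : ℝ} (hr : 0 < r) (hη : 0 < η) (hε : 0 < ε) :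
    ∀ᶠ N : ℕ in atTop, 0 < N ∧ 2 ≤ N * r ∧ 2 * π ≤ N * r ∧ 1 ≤ ε / 2 * N ∧
      (6 * N + 96 / r) * Real.exp (-(11 * η * N)) ≤ 1 / 2 := by
  obtain ⟨n₁, hn₁⟩ := exists_nat_ge ((2 * π) / r)
  obtain ⟨n₂, hn₂⟩ := exists_nat_ge (2 / ε)
  obtain ⟨n₃, hn₃⟩ := exists_nat_ge ((12 + 192 / r) * 2 / (121 * η ^ 2))
  filter_upwards [eventually_ge_atTop (n₁ + n₂ + n₃ + 1)] with N hN
  have hN1 : (n₁ : ℝ) ≤ N := by exact_mod_cast (by omega : n₁ ≤ N)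
  have hN2 : (n₂ : ℝ) ≤ N := by exact_mod_cast (by omega : n₂ ≤ N)
  have hN3 : (n₃ : ℝ) ≤ N := by exact_mod_cast (by omega : n₃ ≤ N)
  have hN0 : (1 : ℝ) ≤ N := by exact_mod_cast (by omega : 1 ≤ N)
  have a1 : 2 * π ≤ N * r := by
    have := hn₁.trans hN1
    rwa [div_le_iff₀ hr] at this
  have a2 : 1 ≤ ε / 2 * N := by
    have := hn₂.trans hN2
    rw [div_le_iff₀ hε] at this
    linarith
  refine ⟨by omega, by linarith [Real.pi_gt_three], a1, a2, ?_⟩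
  have a3 : (12 + 192 / r) ≤ 121 * η ^ 2 * N / 2 := by
    have := hn₃.trans hN3
    rw [div_le_iff₀ (by positivity)] at this
    linarith
  have a4 : 2 * (6 * N + 96 / r) ≤ Real.exp (11 * η * N) := by
    have b1 := Real.quadratic_le_exp_of_nonneg (x := 11 * η * N) (by positivity)
    have b2 : N * (12 + 192 / r) ≤ N * (121 * η ^ 2 * N / 2) :=
      mul_le_mul_of_nonneg_left a3 (by linarith)
    have b3 : 192 / r ≤ N * (192 / r) := le_mul_of_one_le_left (by positivity) hN0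
    have b4 : N * (121 * η ^ 2 * N / 2) = (11 * η * N) ^ 2 / 2 := by ring
    have b5 : 0 ≤ 11 * η * (N : ℝ) := by positivity
    have b6 : 2 * (6 * (N : ℝ) + 96 / r) = 12 * N + 192 / r := by ring
    have b7 : N * (12 + 192 / r) = 12 * N + N * (192 / r) := by ring
    rw [b6]
    rw [b4, b7] at b2
    linarith
  rw [Real.exp_neg, ← div_eq_mul_inv, div_le_div_iff₀ (Real.exp_pos _) (by norm_num)]
  linarith

theorem choose_a {N : ℕ} {r : ℝ} (hN0 : 0 < N) (hr : 0 < r) (hr1 : r ≤ 1) (hNπ : 2 * π ≤ N * r) :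
    ∃ a : ℕ, 2 * a < N ∧ r ≤ π * (N - 2 * a) / N ∧ π * (N - 2 * a) / N ≤ 2 * r := by
  have hp := Real.pi_pos
  have hNR : (0 : ℝ) < N := by exact_mod_cast hN0
  have h1 : 0 ≤ N * (1 - r / π) / 2 := by
    have h0 : r / π ≤ 1 := by
      rw [div_le_one hp]; linarith [Real.pi_gt_three]
    have : 0 ≤ 1 - r / π := by linarith
    positivity
  have h2 := Nat.floor_le h1
  have h3 := Nat.lt_floor_add_one (N * (1 - r / π) / 2)
  generalize ⌊N * (1 - r / π) / 2⌋₊ = a at h2 h3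
  have h4 : (N : ℝ) * (1 - r / π) = N - N * r / π := by ring
  rw [h4] at h2 h3
  have h5 : N * r / π ≤ N - 2 * a := by linarith
  have h6 : (N : ℝ) - 2 * a < N * r / π + 2 := by linarith
  have h7 : 0 < N * r / π := by positivity
  refine ⟨a, ?_, ?_, ?_⟩
  · have : 2 * (a : ℝ) < N := by linarith
    exact_mod_cast this
  · rw [le_div_iff₀ hNR]
    have : r * N = π * (N * r / π) := by field_simp
    rw [this]
    exact mul_le_mul_of_nonneg_left h5 hp.le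
  · rw [div_le_iff₀ hNR]
    have h8 : π * (N - 2 * a) ≤ π * (N * r / π + 2) := mul_le_mul_of_nonneg_left h6.le hp.le
    have h9 : π * (N * r / π + 2) = N * r + 2 * π := by field_simp
    rw [h9] at h8
    linarith

theorem num_est {N : ℕ} {r η κ g₄ c σ₀ t X : ℝ} (hr : 0 < r) (hη : 0 < η) (ht : t ≤ 2 * η)
    (hη1 : 16 * η ≤ r / 4) (hη2 : 16 * η ≤ c / 2 * r ^ 2) (hη3 : 16 * η ≤ κ) (hη4 : 16 * η ≤ g₄)
    (h : X ≤ Real.exp (N * t / 2) *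
      (N * (3 * Real.exp (N * (σ₀ - κ)) + 3 * Real.exp (N * (σ₀ + 2 * η - g₄))) +
        16 / r * (3 * Real.exp (N * (σ₀ + 2 * η + r / 4)) * Real.exp (-(N * r / 2)) +
          3 * Real.exp (N * (σ₀ + 2 * η - c / 2 * r ^ 2))))) :
    X ≤ (6 * N + 96 / r) * Real.exp (N * (σ₀ - 13 * η)) := by
  have hNR : (0 : ℝ) ≤ N := Nat.cast_nonneg N
  have hX : Real.exp (N * t / 2) ≤ Real.exp (N * η) := by
    refine Real.exp_le_exp.2 ?_
    have h1 : (N : ℝ) * t ≤ N * (2 * η) := mul_le_mul_of_nonneg_left ht hNR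
    linarith
  have t1 : Real.exp (N * (σ₀ - κ)) ≤ Real.exp (N * (σ₀ - 14 * η)) :=
    Real.exp_le_exp.2 (mul_le_mul_of_nonneg_left (by linarith) hNR)
  have t2 : Real.exp (N * (σ₀ + 2 * η - g₄)) ≤ Real.exp (N * (σ₀ - 14 * η)) :=
    Real.exp_le_exp.2 (mul_le_mul_of_nonneg_left (by linarith) hNR)
  have t3 : Real.exp (N * (σ₀ + 2 * η + r / 4)) * Real.exp (-(N * r / 2)) ≤
      Real.exp (N * (σ₀ - 14 * η)) := by
    rw [← Real.exp_add]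
    refine Real.exp_le_exp.2 ?_
    have e : N * (σ₀ + 2 * η + r / 4) + -(N * r / 2) = N * (σ₀ + 2 * η - r / 4) := by ring
    rw [e]
    exact mul_le_mul_of_nonneg_left (by linarith) hNR
  have t4 : Real.exp (N * (σ₀ + 2 * η - c / 2 * r ^ 2)) ≤ Real.exp (N * (σ₀ - 14 * η)) :=
    Real.exp_le_exp.2 (mul_le_mul_of_nonneg_left (by linarith) hNR)
  have e13 : Real.exp (N * (σ₀ - 13 * η)) =
      Real.exp (N * η) * Real.exp (N * (σ₀ - 14 * η)) := by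
    rw [← Real.exp_add]; congr 1; ring
  rw [e13]
  have p1 := Real.exp_pos (N * (σ₀ - 14 * η))
  have p2 := Real.exp_pos (N * (σ₀ - κ))
  have p3 := Real.exp_pos (N * (σ₀ + 2 * η - g₄))
  have p4 := mul_pos (Real.exp_pos (N * (σ₀ + 2 * η + r / 4))) (Real.exp_pos (-(N * r / 2)))
  have p5 := Real.exp_pos (N * (σ₀ + 2 * η - c / 2 * r ^ 2))
  have p6 := Real.exp_pos (N * t / 2)
  have p7 := Real.exp_pos (N * η)
  rw [mul_assoc 3 (Real.exp (N * (σ₀ + 2 * η + r / 4)))] at h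
  clear e13
  generalize Real.exp (N * (σ₀ - 14 * η)) = Y at *
  generalize Real.exp (N * (σ₀ - κ)) = Y1 at *
  generalize Real.exp (N * (σ₀ + 2 * η - g₄)) = Y2 at *
  generalize Real.exp (N * (σ₀ + 2 * η + r / 4)) * Real.exp (-(N * r / 2)) = Y3 at *
  generalize Real.exp (N * (σ₀ + 2 * η - c / 2 * r ^ 2)) = Y4 at *
  generalize Real.exp (N * t / 2) = Z at *
  generalize Real.exp (N * η) = Z' at *
  have u1 : N * (3 * Y1 + 3 * Y2) ≤ N * (3 * Y + 3 * Y) :=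
    mul_le_mul_of_nonneg_left (by linarith) hNR
  have u2 : 16 / r * (3 * Y3 + 3 * Y4) ≤ 16 / r * (3 * Y + 3 * Y) :=
    mul_le_mul_of_nonneg_left (by linarith) (by positivity)
  have u3 : 0 ≤ N * (3 * Y1 + 3 * Y2) + 16 / r * (3 * Y3 + 3 * Y4) := by positivity
  refine h.trans ((mul_le_mul hX (add_le_add u1 u2) u3 p7.le).trans (le_of_eq ?_))
  ring

/-- the comparison for fixed `N` -/
theorem step {N : ℕ} {r η κ g₄ c σ₀ ρ₁ : ℝ} (hr : 0 < r) (hr1 : r ≤ 1) (hrρ₁ : 2 * r < ρ₁)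
    (hN0 : 0 < N) (hNr : 2 ≤ N * r) (hNπ : 2 * π ≤ N * r) (hc : 0 < c) (hη : 0 < η)
    (hη1 : 16 * η ≤ r / 4) (hη2 : 16 * η ≤ c / 2 * r ^ 2) (hη3 : 16 * η ≤ κ) (hη4 : 16 * η ≤ g₄)
    {f B : ℂ → ℂ} (hf : ∀ u, Rep N (fun x => f x * ef N u x))
    (hBd : DifferentiableOn ℂ B (Rc ρ₁ ρ₁))
    (hB : ∀ x : ℂ, |x.re| ≤ 2 * r → |x.im| ≤ r →
      ‖B x‖ ≤ Real.exp (N * (σ₀ + 2 * η - c / 2 * x.re ^ 2 + |x.im| / 4)))
    (hin : ∀ j : ℕ, j < N → |(nd N j).re| ≤ 2 * r →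
      ‖f (nd N j) - B (nd N j)‖ ≤ Real.exp (N * (σ₀ - κ)))
    (hout : ∀ j : ℕ, j < N → r ≤ |(nd N j).re| → |(nd N j).re| ≤ π →
      ‖f (nd N j)‖ ≤ Real.exp (N * (σ₀ + 2 * η - g₄)))
    {u : ℂ} (hu1 : |u.re| ≤ r / 2) (hu2 : |u.im| ≤ r / 2) (hu3 : |u.im| ≤ 2 * η) :
    ‖f u - B u‖ ≤ (6 * N + 96 / r) * Real.exp (N * (σ₀ - 13 * η)) := by
  have hp := Real.pi_pos
  have hNR : (0 : ℝ) < N := by exact_mod_cast hN0
  obtain ⟨a, ha1, ha2, ha3⟩ := choose_a hN0 hr hr1 hNπ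
  have hndim : ∀ j : ℕ, (nd N j).im = 0 := by
    intro j; rw [nd_im, Complex.natCast_im]; ring
  have hndre : ∀ j : ℕ, |(nd N j).re| = π * |2 * (j : ℝ) + 1 - N| / N := by
    intro j; rw [nd_re, Complex.natCast_re, abs_div, abs_mul, Nat.abs_cast, abs_of_pos hp]
  have him0 : ∀ j : ℕ, |(nd N j).im - u.im| ≤ 2 := by
    intro j
    rw [hndim, zero_sub, abs_neg]; linarith
  have hkey := interp_main (a := a) hr hr1 hN0 ha1 ha2 ha3 hNr
    (F := fun x => f x * ef N u x) (B := fun x => B x * ef N u x)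
    (Pool.Agent.W293.HT.isOpen_Rc ρ₁ ρ₁) (hBd.mul (ef_diff N u).differentiableOn)
    (fun x hx1 hx2 => ⟨by linarith, by linarith⟩) (hf u)
    (E₁ := 3 * Real.exp (N * (σ₀ - κ))) (E₂ := 3 * Real.exp (N * (σ₀ + 2 * η - g₄)))
    (E₃ := 3 * Real.exp (N * (σ₀ + 2 * η + r / 4)))
    (E₄ := 3 * Real.exp (N * (σ₀ + 2 * η - c / 2 * r ^ 2)))
    (by positivity) (by positivity) (by positivity) (by positivity) ?_ ?_ ?_ ?_ hu1 hu2
  · simp only [ef_self, mul_one] at hkey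
    exact num_est hr hη hu3 hη1 hη2 hη3 hη4 hkey
  · -- nodes inside
    intro j hj
    rw [Finset.mem_Ico] at hj
    show ‖f (nd N j) * ef N u (nd N j) - B (nd N j) * ef N u (nd N j)‖ ≤ _
    rw [← sub_mul, norm_mul, mul_comm (3 : ℝ)]
    refine mul_le_mul (hin j (by omega) ?_) (ef_le N (him0 j)) (norm_nonneg _) (Real.exp_pos _).le
    rw [hndre]
    refine le_trans (div_le_div_of_nonneg_right (mul_le_mul_of_nonneg_left ?_ hp.le) hNR.le) ha3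
    have q1 : (a : ℝ) ≤ j := by exact_mod_cast hj.1
    have q2 : (j : ℝ) + a + 1 ≤ N := by exact_mod_cast (by omega : j + a + 1 ≤ N)
    rw [abs_le]; constructor <;> linarith
  · -- nodes outside
    intro j hj hj'
    rw [Finset.mem_range] at hj
    rw [Finset.mem_Ico] at hj'
    show ‖f (nd N j) * ef N u (nd N j)‖ ≤ _
    rw [norm_mul, mul_comm (3 : ℝ)]
    refine mul_le_mul (hout j hj ?_ ?_) (ef_le N (him0 j)) (norm_nonneg _) (Real.exp_pos _).le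
    · rw [hndre]
      refine ha2.trans (div_le_div_of_nonneg_right (mul_le_mul_of_nonneg_left ?_ hp.le) hNR.le)
      rcases Nat.lt_or_ge j a with h | h
      · have q1 : (j : ℝ) + 1 ≤ a := by exact_mod_cast (by omega : j + 1 ≤ a)
        refine le_trans ?_ (neg_le_abs _)
        linarith
      · have q1 : (N : ℝ) ≤ j + a := by exact_mod_cast (by omega : N ≤ j + a)
        refine le_trans ?_ (le_abs_self _)
        linarith
    · rw [hndre, div_le_iff₀ hNR]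
      refine mul_le_mul_of_nonneg_left ?_ hp.le
      have hjR : (j : ℝ) + 1 ≤ N := by exact_mod_cast (by omega : j + 1 ≤ N)
      have hj0 : (0 : ℝ) ≤ j := Nat.cast_nonneg j
      rw [abs_le]; constructor <;> linarith
  · -- horizontal sides
    intro x hx1 hx2
    show ‖B x * ef N u x‖ ≤ _
    rw [norm_mul, mul_comm (3 : ℝ)]
    refine mul_le_mul ?_ (ef_le N ?_) (norm_nonneg _) (Real.exp_pos _).le
    · refine (hB x hx1 hx2.le).trans (Real.exp_le_exp.2 (mul_le_mul_of_nonneg_left ?_ hNR.le))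
      rw [hx2]
      have : 0 ≤ c / 2 * x.re ^ 2 := by positivity
      linarith
    · refine (abs_sub _ _).trans ?_
      linarith
  · -- vertical sides
    intro x hx1 hx2
    show ‖B x * ef N u x‖ ≤ _
    rw [norm_mul]
    have h1 := hB x (by rw [hx1]; exact ha3) hx2
    have h2 : r ^ 2 ≤ x.re ^ 2 := by
      rw [← sq_abs x.re, hx1]
      exact pow_le_pow_left₀ hr.le ha2 2
    have h3 : c / 2 * r ^ 2 ≤ c / 2 * x.re ^ 2 := mul_le_mul_of_nonneg_left h2 (by positivity)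
    have h4 : Real.exp (N * (σ₀ + 2 * η - c / 2 * x.re ^ 2 + |x.im| / 4)) ≤
        Real.exp (N * (σ₀ + 2 * η - c / 2 * r ^ 2)) * Real.exp (N * |x.im| / 2) := by
      rw [← Real.exp_add]
      refine Real.exp_le_exp.2 ?_
      have e : N * (σ₀ + 2 * η - c / 2 * r ^ 2) + N * |x.im| / 2 =
        N * (σ₀ + 2 * η - c / 2 * r ^ 2 + |x.im| / 2) := by ring
      rw [e]
      refine mul_le_mul_of_nonneg_left ?_ hNR.le
      have := abs_nonneg x.im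
      linarith
    have h5 : ‖ef N u x‖ ≤ 3 := ef_le N ((abs_sub _ _).trans (by linarith))
    calc ‖B x‖ * ‖ef N u x‖ ≤ (Real.exp (N * (σ₀ + 2 * η - c / 2 * r ^ 2)) *
          Real.exp (N * |x.im| / 2)) * 3 :=
            mul_le_mul (h1.trans h4) h5 (norm_nonneg _) (by positivity)
      _ = 3 * Real.exp (N * (σ₀ + 2 * η - c / 2 * r ^ 2)) * Real.exp (N * |x.im| / 2) := by ring

/-- the exponent in the second variable -/
theorem expo_le {χ₀ : ℂ} {ρ₀ c C : ℝ} {s dl : ℂ → ℂ → ℂ → ℂ} (S : SDZ χ₀ ρ₀ c C s dl)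
    {ψ χ : ℂ} (hψ : ψ ∈ Rc ρ₀ ρ₀) (hχ : χ ∈ Rz χ₀ ρ₀) {r b : ℝ} (hrρ₀ : 2 * r ≤ ρ₀ / 4)
    (hrM : 16 * C / ρ₀ ^ 2 * (3 * r) ≤ 1 / 4) (hb : (s ψ 0 χ).re ≤ b) {x : ℂ}
    (hx1 : |x.re| ≤ 2 * r) (hx2 : |x.im| ≤ r) :
    (s ψ x χ).re ≤ b - c / 2 * x.re ^ 2 + |x.im| / 4 := by
  have hρ₀ : 0 < ρ₀ := S.hρ.1
  have hC := S.hC
  have hr : 0 ≤ r := (abs_nonneg _).trans hx2
  have hφd : DifferentiableOn ℂ (fun x => s x ψ χ) (Rc ρ₀ ρ₀) := by
    have h1 : DifferentiableOn ℂ (fun x : ℂ => ((x, ψ, χ) : ℂ × ℂ × ℂ)) (Rc ρ₀ ρ₀) := by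
      fun_prop
    exact S.san.comp h1 (fun x hx => ⟨hx, hψ, hχ⟩)
  have h2 := quadQ (φ := fun x => s x ψ χ) hρ₀ hφd (fun x hx => S.sbd x hx ψ hψ χ hχ)
    (fun x hx => S.ev x hx ψ hψ χ hχ) (fun x hx => (S.conc x hx ψ hψ χ hχ).1)
    (x := x) (by linarith) (by linarith)
  have hx0 : x ∈ Rc ρ₀ ρ₀ := ⟨by linarith, by linarith⟩
  have e1 : s x ψ χ = s ψ x χ := S.sym x hx0 ψ hψ χ hχ
  have e2 : s 0 ψ χ = s ψ 0 χ := S.sym 0 (Pool.Agent.W293.HT.zero_mem_Rc hρ₀ hρ₀) ψ hψ χ hχ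
  simp only [e1, e2] at h2
  have h3 : 16 * C / ρ₀ ^ 2 * (|x.re| + |x.im|) * |x.im| ≤ 1 / 4 * |x.im| := by
    refine mul_le_mul_of_nonneg_right ?_ (abs_nonneg _)
    refine le_trans ?_ hrM
    exact mul_le_mul_of_nonneg_left (by linarith) (by positivity)
  generalize 16 * C / ρ₀ ^ 2 * (|x.re| + |x.im|) * |x.im| = q at *
  linarith

theorem choose_rho {a b c d e f : ℝ} (ha : 0 < a) (hb : 0 < b) (hc : 0 < c) (hd : 0 < d)
    (he : 0 < e) (hf : 0 < f) : ∃ ρ : ℝ, 0 < ρ ∧ ρ ≤ a ∧ ρ ≤ b ∧ ρ ≤ c ∧ ρ ≤ d ∧ ρ ≤ e ∧ ρ ≤ f := by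
  refine ⟨min (min (min a b) (min c d)) (min e f), by positivity, ?_, ?_, ?_, ?_, ?_, ?_⟩
  · exact (min_le_left _ _).trans ((min_le_left _ _).trans (min_le_left _ _))
  · exact (min_le_left _ _).trans ((min_le_left _ _).trans (min_le_right _ _))
  · exact (min_le_left _ _).trans ((min_le_right _ _).trans (min_le_left _ _))
  · exact (min_le_left _ _).trans ((min_le_right _ _).trans (min_le_right _ _))
  · exact (min_le_right _ _).trans (min_le_left _ _)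
  · exact (min_le_right _ _).trans (min_le_right _ _)

theorem node_bd {N j : ℕ} (hj : j < N) : (π : ℂ) * ((j : ℂ) - ((N - 1 - j : ℕ) : ℂ)) / N = nd N j ∧
    |π * ((j : ℝ) - ((N - 1 - j : ℕ) : ℝ)) / N| = |(nd N j).re| := by
  have hq : ((N - 1 - j : ℕ) : ℝ) = N - 1 - j := by
    rw [Nat.cast_sub (by omega), Nat.cast_sub (by omega)]; simp
  have hqC : ((N - 1 - j : ℕ) : ℂ) = N - 1 - j := by
    rw [Nat.cast_sub (by omega), Nat.cast_sub (by omega)]; simp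
  refine ⟨?_, ?_⟩
  · unfold nd
    rw [hqC]; congr 1; ring
  · rw [nd_re, Complex.natCast_re, hq]
    congr 2; ring

/-- **MWZ** -/
theorem mwz : Pool.Agent.Y472.S_MWZ := by
  intro hKB hLO hSD χ₀ hχ₀
  obtain ⟨ρs, c₂, hρs, hρs1, hc₂, hKB⟩ := hKB
  obtain ⟨ρ₁, κ, hρ₁, hρ₁1, hκ, A, hA1, hA2, hA3⟩ := hLO χ₀ hχ₀
  obtain ⟨ρ₀, c, C, S⟩ := hSD χ₀ hχ₀
  have hρ₀ : 0 < ρ₀ := S.hρ.1
  have hp := Real.pi_pos
  have hc := S.hc
  have hC := S.hC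
  obtain ⟨r, hr, hr1, hrρ₀, hrρ₁, hrM⟩ := choose_r hρ₀ hρ₁
    (show 0 < 16 * C / ρ₀ ^ 2 by positivity)
  -- the gain
  obtain ⟨g₄, hg₄⟩ : ∃ g₄, g₄ = c₂ * min r ρs ^ 2 := ⟨_, rfl⟩
  have hg₄pos : 0 < g₄ := by rw [hg₄]; positivity
  obtain ⟨η, hη, hη1, hη2, hη3, hη4⟩ := choose_min4 (show 0 < r / 4 by positivity)
    (show 0 < c / 2 * r ^ 2 by positivity) hκ hg₄pos
  obtain ⟨τ, hτ, hKB⟩ := hKB η hη
  obtain ⟨ρc, hρc, hρcρ₀, hcont⟩ := cont_box S hη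
  obtain ⟨σ₀, hσ₀⟩ : ∃ σ₀, σ₀ = (s0 χ₀).re := ⟨_, rfl⟩
  have hz₀ : (0 : ℂ) ∈ Rc ρ₀ ρ₀ := Pool.Agent.W293.HT.zero_mem_Rc hρ₀ hρ₀
  have hχ₀mem : χ₀ ∈ Rz χ₀ ρ₀ := by
    show χ₀ - χ₀ ∈ Rc ρ₀ ρ₀
    rw [sub_self]; exact hz₀
  rw [S.zero χ₀ hχ₀mem, ← hσ₀] at hcont
  rw [← hσ₀] at hA3
  obtain ⟨hZ1, hZ2, hZ3, hZ4⟩ := hχ₀
  -- the final radius
  obtain ⟨ρ₂, hρ₂, hρ₂r, hρ₂τ, hρ₂η, hρ₂i, hρ₂c, hρ₂ρ₁⟩ := choose_rho
    (show 0 < r / 2 by positivity) hτ (show 0 < 2 * η by positivity)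
    (show 0 < 9 / 5 - χ₀.im by linarith) hρc hρ₁
  have hρ₂h : ρ₂ ≤ 1 / 2 := by linarith
  refine ⟨ρ₂, hρ₂, by linarith, fun ε hε => ?_⟩
  filter_upwards [choose_large hr hη hε, hA1, hA2 η hη, hA2 (ε / 2) (by positivity), hA3, hKB]
    with N hN hA1 hA2 hA2' hA3 hKB
  obtain ⟨hN0, hNr, hNπ, hNε, hNexp⟩ := hN
  intro ψ hψ ψ' hψ' χ hχ
  have hNR : (0 : ℝ) < N := by exact_mod_cast hN0
  -- membership
  have hψ₁ : ψ ∈ Rc ρ₁ ρ₁ := Rc_sub hρ₂ρ₁ hψ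
  have hψ₀ : ψ ∈ Rc ρ₀ ρ₀ := Rc_sub (hρ₂c.trans hρcρ₀) hψ
  have hψc : ψ ∈ Rc ρc ρc := Rc_sub hρ₂c hψ
  have hψ'₁ : ψ' ∈ Rc ρ₁ ρ₁ := Rc_sub hρ₂ρ₁ hψ'
  have hψ'c : ψ' ∈ Rc ρc ρc := Rc_sub hρ₂c hψ'
  have hχ₁ : χ ∈ Rz χ₀ ρ₁ := Rc_sub hρ₂ρ₁ hχ
  have hχ₀' : χ ∈ Rz χ₀ ρ₀ := Rc_sub (hρ₂c.trans hρcρ₀) hχ
  have hχc : χ ∈ Rz χ₀ ρc := Rc_sub hρ₂c hχ
  have hzc : (0 : ℂ) ∈ Rc ρc ρc := Pool.Agent.W293.HT.zero_mem_Rc hρc hρc
  have hs0 : (s0 χ).re ≤ σ₀ + η := by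
    have := hcont 0 hzc 0 hzc χ hχc
    rw [S.zero χ hχ₀'] at this
    have := (abs_le.1 this).2
    clear * - this
    linarith
  have hsψ0 : (szz ψ 0 χ).re ≤ σ₀ + η := by
    have := (abs_le.1 (hcont ψ hψc 0 hzc χ hχc)).2
    clear * - this
    linarith
  have hsψψ' : σ₀ - η ≤ (szz ψ ψ' χ).re := by
    have := (abs_le.1 (hcont ψ hψc ψ' hψ'c χ hχc)).1
    clear * - this
    linarith
  have hkA := step (f := fun x => kh N ψ x χ) (B := fun x => A N ψ x χ) (u := ψ') (η := η)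
    (κ := κ) (g₄ := g₄) (c := c) (σ₀ := σ₀) hr hr1 hrρ₁ hN0 hNr hNπ hc hη hη1 hη2 hη3 hη4
    (fun u => F_Rep hN0 ψ χ u) (hA1 ψ hψ₁ χ hχ₁) ?_ ?_ ?_ (hψ'.1.le.trans hρ₂r)
    (hψ'.2.le.trans hρ₂r) (hψ'.2.le.trans hρ₂η)
  · -- conclusion
    obtain ⟨hAne, hA2a⟩ := hA2 ψ hψ₁ ψ' hψ'₁ χ hχ₁
    obtain ⟨-, hA2b⟩ := hA2' ψ hψ₁ ψ' hψ'₁ χ hχ₁
    have hAge : Real.exp (N * (σ₀ - 2 * η)) ≤ ‖A N ψ ψ' χ‖ := by
      rw [← Real.exp_log (norm_pos_iff.2 hAne)]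
      refine Real.exp_le_exp.2 ?_
      have h1 := (abs_le.1 hA2a).1
      have h2 : N * (σ₀ - η) ≤ N * (szz ψ ψ' χ).re := mul_le_mul_of_nonneg_left hsψψ' hNR.le
      have h3 : N * (σ₀ - 2 * η) = N * (σ₀ - η) - η * N := by ring
      rw [h3]
      clear * - h1 h2
      linarith
    have hsmall : ‖kh N ψ ψ' χ - A N ψ ψ' χ‖ ≤ ‖A N ψ ψ' χ‖ / 2 := by
      have e : Real.exp (N * (σ₀ - 13 * η)) =
          Real.exp (-(11 * η * N)) * Real.exp (N * (σ₀ - 2 * η)) := by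
        rw [← Real.exp_add]; congr 1; ring
      rw [e] at hkA
      calc ‖kh N ψ ψ' χ - A N ψ ψ' χ‖ ≤
          (6 * N + 96 / r) * (Real.exp (-(11 * η * N)) * Real.exp (N * (σ₀ - 2 * η))) := hkA
        _ = (6 * N + 96 / r) * Real.exp (-(11 * η * N)) * Real.exp (N * (σ₀ - 2 * η)) := by ring
        _ ≤ 1 / 2 * ‖A N ψ ψ' χ‖ := mul_le_mul hNexp hAge (Real.exp_pos _).le (by norm_num)
        _ = ‖A N ψ ψ' χ‖ / 2 := by ring
    obtain ⟨hk0, hk1⟩ := fin_cmp hAne hsmall hA2b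
    refine ⟨hk0, hk1.trans ?_⟩
    clear * - hNε
    linarith
  · -- the bound of `A`
    intro x hx1 hx2
    have hx : x ∈ Rc ρ₁ ρ₁ := by
      clear * - hx1 hx2 hrρ₁ hr
      exact ⟨by linarith, by linarith⟩
    obtain ⟨h1, h2⟩ := hA2 ψ hψ₁ x hx χ hχ₁
    have h3 := (abs_le.1 h2).2
    show ‖A N ψ x χ‖ ≤ _
    rw [← Real.exp_log (norm_pos_iff.2 h1)]
    refine Real.exp_le_exp.2 ?_
    have h4 : N * (szz ψ x χ).re ≤ N * (σ₀ + η - c / 2 * x.re ^ 2 + |x.im| / 4) :=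
      mul_le_mul_of_nonneg_left (expo_le S hψ₀ hχ₀' hrρ₀ hrM hsψ0 hx1 hx2) hNR.le
    have h5 : N * (σ₀ + 2 * η - c / 2 * x.re ^ 2 + |x.im| / 4) =
      N * (σ₀ + η - c / 2 * x.re ^ 2 + |x.im| / 4) + η * N := by ring
    rw [h5]
    clear * - h3 h4
    linarith
  · -- nodes inside
    intro j hj hj'
    obtain ⟨e1, e2⟩ := node_bd hj
    have h1 := hA3 j (N - 1 - j) (by omega) (by rw [e2]; exact hj'.trans_lt hrρ₁) ψ hψ₁ χ hχ₁
    rw [e1] at h1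
    exact h1
  · -- nodes outside
    intro j hj hj1 hj2
    have hχre : |χ.re| ≤ 2 * π / 3 := by
      have h1 : |χ.re - χ₀.re| < ρ₂ := by have := hχ.1; rwa [Complex.sub_re] at this
      have h2 := abs_lt.1 h1
      have h3 := Real.pi_gt_three
      clear * - h2 h3 hZ1 hZ2 hρ₂h
      rw [abs_le]; constructor <;> linarith
    have hχim : |χ.im| ≤ 9 / 5 := by
      have h1 : |χ.im - χ₀.im| < ρ₂ := by have := hχ.2; rwa [Complex.sub_im] at this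
      have h2 := abs_lt.1 h1
      clear * - h2 hZ3 hZ4 hρ₂h hρ₂i
      rw [abs_le]; constructor <;> linarith
    have hψre : |ψ.re| ≤ π := by
      have h1 := hψ.1
      have h3 := Real.pi_gt_three
      clear * - h1 h3 hρ₂h
      linarith
    have him : (nd N j).im = 0 := by rw [nd_im, Complex.natCast_im]; ring
    have h1 := hKB ψ (nd N j) χ hψre (hψ.2.le.trans hρ₂τ) hj2 (by rw [him, abs_zero]; exact hτ.le)
      hχre hχim
    refine h1.trans (Real.exp_le_exp.2 (mul_le_mul_of_nonneg_left ?_ hNR.le))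
    have h2 : min r ρs ^ 2 ≤ min |(nd N j).re| ρs ^ 2 :=
      pow_le_pow_left₀ (le_min hr.le hρs.le) (min_le_min_right _ hj1) 2
    have h3 : g₄ ≤ c₂ * min |(nd N j).re| ρs ^ 2 := by
      rw [hg₄]; exact mul_le_mul_of_nonneg_left h2 hc₂.le
    have h4 : 0 ≤ c₂ * min |ψ.re| ρs ^ 2 := by positivity
    clear * - h3 h4 hs0
    linarith

end Pool.Agent.Y232.CG
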