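import Pool.Agent.Y232.CG.Cont
import Pool.Agent.W293.HT.CP1

/-!
# Bounds for the interpolation by a contour integral
-/

set_option autoImplicit false

namespace Pool.Agent.Y232.CG

open Filter Topology Metric Set MeasureTheory Pool.Agent.W709.VC Pool.Agent.W588.HT
open Pool.Agent.W711.HT (Rc)
open scoped Real Interval

theorem sin_sq (v : ℂ) : ‖Complex.sin v‖ ^ 2 = Real.sin v.re ^ 2 + Real.sinh v.im ^ 2 := by
  have h : Complex.sin v = ((Real.sin v.re * Real.cosh v.im : ℝ) : ℂ) +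
      ((Real.cos v.re * Real.sinh v.im : ℝ) : ℂ) * Complex.I := by
    rw [Complex.sin_eq v]
    push_cast
    ring
  rw [h, ← Complex.normSq_eq_norm_sq, Complex.normSq_add_mul_I]
  have h1 := Real.sin_sq_add_cos_sq v.re
  have h2 := Real.cosh_sq v.im
  rw [mul_pow, mul_pow, h2]
  have h3 : Real.cos v.re ^ 2 = 1 - Real.sin v.re ^ 2 := by linarith
  rw [h3]; ring

theorem sin_ge_sinh (v : ℂ) : |Real.sinh v.im| ≤ ‖Complex.sin v‖ :=
  abs_le_of_sq_le_sq (by rw [sin_sq]; nlinarith [sq_nonneg (Real.sin v.re)]) (norm_nonneg _)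

theorem sin_ge_sin (v : ℂ) : |Real.sin v.re| ≤ ‖Complex.sin v‖ :=
  abs_le_of_sq_le_sq (by rw [sin_sq]; nlinarith [sq_nonneg (Real.sinh v.im)]) (norm_nonneg _)

theorem cosh_le_exp (x : ℝ) : Real.cosh x ≤ Real.exp |x| := by
  rw [Real.cosh_eq]
  have h1 : Real.exp x ≤ Real.exp |x| := Real.exp_le_exp.2 (le_abs_self x)
  have h2 : Real.exp (-x) ≤ Real.exp |x| := Real.exp_le_exp.2 (neg_le_abs x)
  linarith

theorem exp_le_cosh (x : ℝ) : Real.exp |x| / 2 ≤ Real.cosh x := by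
  rw [Real.cosh_eq]
  have h1 := Real.exp_pos x
  have h2 := Real.exp_pos (-x)
  rcases abs_cases x with ⟨h, -⟩ | ⟨h, -⟩ <;> rw [h] <;> linarith

theorem sin_le_exp (v : ℂ) : ‖Complex.sin v‖ ≤ Real.exp |v.im| := by
  refine le_trans ?_ (cosh_le_exp v.im)
  have h1 : ‖Complex.sin v‖ ^ 2 ≤ Real.cosh v.im ^ 2 := by
    rw [sin_sq, Real.cosh_sq]
    nlinarith [Real.sin_sq_le_one v.re]
  have h2 := abs_le_of_sq_le_sq h1 (Real.cosh_pos _).le
  rwa [abs_of_nonneg (norm_nonneg _)] at h2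

theorem cos_le_exp (v : ℂ) : ‖Complex.cos v‖ ≤ Real.exp |v.im| := by
  have h := sin_le_exp (v + π / 2)
  have e : Complex.sin (v + π / 2) = Complex.cos v := Complex.sin_add_pi_div_two v
  rw [e] at h
  have e2 : (v + π / 2).im = v.im := by
    have : (π / 2 : ℂ) = ((π / 2 : ℝ) : ℂ) := by push_cast; ring
    rw [this]; simp
  rwa [e2] at h

theorem sinh_ge_abs (b : ℝ) : |b| ≤ |Real.sinh b| := by
  rcases le_total 0 b with h | h
  · have h1 := Real.self_le_sinh_iff.2 h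
    rw [abs_of_nonneg h, abs_of_nonneg (h.trans h1)]
    exact h1
  · have h1 := Real.self_le_sinh_iff.2 (neg_nonneg.2 h)
    rw [Real.sinh_neg] at h1
    rw [abs_of_nonpos h]
    exact h1.trans (neg_le_abs _)

theorem sinh_ge_exp {b : ℝ} (h : 1 ≤ |b|) : Real.exp |b| / 4 ≤ |Real.sinh b| := by
  have key : ∀ b : ℝ, 1 ≤ b → Real.exp b / 4 ≤ Real.sinh b := by
    intro b hb
    rw [Real.sinh_eq]
    have h1 : Real.exp (-b) ≤ 1 := Real.exp_le_one_iff.2 (by linarith)
    have h2 : 2 ≤ Real.exp b := by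
      have := Real.add_one_le_exp b
      linarith
    linarith
  rcases le_total 0 b with h0 | h0
  · rw [abs_of_nonneg h0] at h ⊢
    exact (key b h).trans (le_abs_self _)
  · rw [abs_of_nonpos h0] at h ⊢
    have := key (-b) h
    rw [Real.sinh_neg] at this
    exact this.trans (neg_le_abs _)

theorem RK_hor {N : ℕ} (hN : 0 < N) {z w : ℂ} {H δ : ℝ} (hw : |w.im| = H) (hH : 1 ≤ π * H)
    (hδ : 0 < δ) (h : δ ≤ π * |z.im - w.im| / N) :
    ‖RK N z w‖ ≤ 2 / (N * δ) * (Real.exp (π * |z.im|) * Real.exp (-(π * H))) := by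
  have hNR : (0 : ℝ) < N := by exact_mod_cast hN
  have hp := Real.pi_pos
  have im1 : ∀ u : ℂ, ((π : ℂ) * u).im = π * u.im := fun u => Complex.im_ofReal_mul _ _
  have h1 : ‖Complex.sin (π * z)‖ ≤ Real.exp (π * |z.im|) := by
    have := sin_le_exp (π * z)
    rwa [im1, abs_mul, abs_of_pos hp] at this
  have h2 : Real.exp (π * H) / 4 ≤ ‖Complex.sin (π * w)‖ := by
    have e : |((π : ℂ) * w).im| = π * H := by rw [im1, abs_mul, abs_of_pos hp, hw]
    have := sinh_ge_exp (b := ((π : ℂ) * w).im) (by rw [e]; exact hH)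
    rw [e] at this
    exact this.trans (sin_ge_sinh _)
  have h3 : δ ≤ ‖Complex.sin (π * (z - w) / N)‖ := by
    have e : |((π : ℂ) * (z - w) / N).im| = π * |z.im - w.im| / N := by
      rw [Complex.div_natCast_im, im1, Complex.sub_im, abs_div, abs_mul, abs_of_pos hp,
        Nat.abs_cast]
    refine h.trans ?_
    rw [← e]
    exact (sinh_ge_abs _).trans (sin_ge_sinh _)
  unfold RK
  rw [norm_div, norm_mul, norm_mul, norm_mul, norm_mul, Complex.norm_I, Complex.norm_natCast,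
    Complex.norm_ofNat, mul_one]
  have hpos : 0 < 2 * (N : ℝ) * δ * (Real.exp (π * H) / 4) := by positivity
  have h4 : 2 * (N : ℝ) * δ * (Real.exp (π * H) / 4) ≤
      2 * N * ‖Complex.sin (π * (z - w) / N)‖ * ‖Complex.sin (π * w)‖ := by
    refine mul_le_mul ?_ h2 (by positivity) (by positivity)
    exact mul_le_mul_of_nonneg_left h3 (by positivity)
  refine (div_le_div₀ (Real.exp_pos _).le h1 hpos h4).trans (le_of_eq ?_)
  rw [Real.exp_neg]
  field_simp
  ring

theorem RK_ver {N : ℕ} (hN : 0 < N) {z w : ℂ} {δ : ℝ} {n : ℤ} (hw : w.re = n - 1 / 2)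
    (hδ : 0 < δ) (h : δ ≤ |Real.sin (π * (z.re - w.re) / N)|) :
    ‖RK N z w‖ ≤ 1 / (N * δ) * (Real.exp (π * |z.im|) * Real.exp (-(π * |w.im|))) := by
  have hNR : (0 : ℝ) < N := by exact_mod_cast hN
  have hp := Real.pi_pos
  have im1 : ∀ u : ℂ, ((π : ℂ) * u).im = π * u.im := fun u => Complex.im_ofReal_mul _ _
  have re1 : ∀ u : ℂ, ((π : ℂ) * u).re = π * u.re := fun u => Complex.re_ofReal_mul _ _
  have h1 : ‖Complex.sin (π * z)‖ ≤ Real.exp (π * |z.im|) := by
    have := sin_le_exp (π * z)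
    rwa [im1, abs_mul, abs_of_pos hp] at this
  have h2 : Real.exp (π * |w.im|) / 2 ≤ ‖Complex.sin (π * w)‖ := by
    have e1 : Real.sin (π * (n - 1 / 2)) ^ 2 = 1 := by
      have e2 : π * ((n : ℝ) - 1 / 2) = n * π - π / 2 := by ring
      have e3 : Real.cos (n * π) ^ 2 = 1 := by
        have := Real.sin_sq_add_cos_sq ((n : ℝ) * π)
        rw [Real.sin_int_mul_pi] at this
        linarith
      rw [e2, Real.sin_sub_pi_div_two, neg_sq, e3]
    have e : ‖Complex.sin (π * w)‖ ^ 2 = Real.cosh (π * w.im) ^ 2 := by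
      rw [sin_sq, re1, im1, hw, e1, Real.cosh_sq]; ring
    have e4 : ‖Complex.sin (π * w)‖ = Real.cosh (π * w.im) := by
      rwa [sq_eq_sq₀ (norm_nonneg _) (Real.cosh_pos _).le] at e
    rw [e4]
    have := exp_le_cosh (π * w.im)
    rwa [abs_mul, abs_of_pos hp] at this
  have h3 : δ ≤ ‖Complex.sin (π * (z - w) / N)‖ := by
    have e : ((π : ℂ) * (z - w) / N).re = π * (z.re - w.re) / N := by
      rw [Complex.div_natCast_re, re1, Complex.sub_re]
    refine h.trans ?_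
    rw [← e]
    exact sin_ge_sin _
  unfold RK
  rw [norm_div, norm_mul, norm_mul, norm_mul, norm_mul, Complex.norm_I, Complex.norm_natCast,
    Complex.norm_ofNat, mul_one]
  have hpos : 0 < 2 * (N : ℝ) * δ * (Real.exp (π * |w.im|) / 2) := by positivity
  have h4 : 2 * (N : ℝ) * δ * (Real.exp (π * |w.im|) / 2) ≤
      2 * N * ‖Complex.sin (π * (z - w) / N)‖ * ‖Complex.sin (π * w)‖ := by
    refine mul_le_mul ?_ h2 (by positivity) (by positivity)
    exact mul_le_mul_of_nonneg_left h3 (by positivity)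
  refine (div_le_div₀ (Real.exp_pos _).le h1 hpos h4).trans (le_of_eq ?_)
  rw [Real.exp_neg]
  field_simp

/-- bound of a boundary integral -/
theorem rect_le {f : ℂ → ℂ} {a b c d M₁ M₂ : ℝ} (hab : a ≤ b) (hcd : c ≤ d)
    (h1 : ∀ x, a ≤ x → x ≤ b → ‖f (x + c * Complex.I)‖ ≤ M₁ ∧ ‖f (x + d * Complex.I)‖ ≤ M₁)
    (h2 : ∀ y, c ≤ y → y ≤ d → ‖f (b + y * Complex.I)‖ ≤ M₂ ∧ ‖f (a + y * Complex.I)‖ ≤ M₂) :
    ‖rect f a b c d‖ ≤ 2 * (b - a) * M₁ + 2 * (d - c) * M₂ := by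
  have e1 : ‖∫ x in a..b, f (x + c * Complex.I)‖ ≤ M₁ * |b - a| :=
    intervalIntegral.norm_integral_le_of_norm_le_const fun x hx => by
      rw [uIoc_of_le hab] at hx; exact (h1 x hx.1.le hx.2).1
  have e2 : ‖∫ x in a..b, f (x + d * Complex.I)‖ ≤ M₁ * |b - a| :=
    intervalIntegral.norm_integral_le_of_norm_le_const fun x hx => by
      rw [uIoc_of_le hab] at hx; exact (h1 x hx.1.le hx.2).2
  have e3 : ‖∫ y in c..d, f (b + y * Complex.I)‖ ≤ M₂ * |d - c| :=
    intervalIntegral.norm_integral_le_of_norm_le_const fun x hx => by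
      rw [uIoc_of_le hcd] at hx; exact (h2 x hx.1.le hx.2).1
  have e4 : ‖∫ y in c..d, f (a + y * Complex.I)‖ ≤ M₂ * |d - c| :=
    intervalIntegral.norm_integral_le_of_norm_le_const fun x hx => by
      rw [uIoc_of_le hcd] at hx; exact (h2 x hx.1.le hx.2).2
  rw [abs_of_nonneg (sub_nonneg.2 hab)] at e1 e2
  rw [abs_of_nonneg (sub_nonneg.2 hcd)] at e3 e4
  unfold rect
  refine (norm_sub_le _ _).trans ?_
  refine (add_le_add_left (norm_add_le _ _) _).trans ?_
  refine (add_le_add_left (add_le_add_left (norm_sub_le _ _) _) _).trans ?_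
  rw [norm_mul, norm_mul, Complex.norm_I, one_mul, one_mul]
  linarith

end Pool.Agent.Y232.CG
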