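import Pool.Agent.Y232.CG.Interp
import Pool.Agent.W588.HT.Box
import Pool.Agent.Y288.VG.RectA

/-!
# Interpolation of analytic functions near the real axis by a contour integral
-/

set_option autoImplicit false

namespace Pool.Agent.Y232.CG

open Filter Topology Metric Set MeasureTheory Pool.Agent.W709.VC Pool.Agent.W588.HT
open scoped Real Interval

theorem sin_exp (v : ℂ) : Complex.sin v =
    (Complex.exp (Complex.I * v) - (Complex.exp (Complex.I * v))⁻¹) / (2 * Complex.I) := by
  rw [Complex.sin, ← Complex.exp_neg]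
  have : (2 * Complex.I) ≠ 0 := mul_ne_zero two_ne_zero Complex.I_ne_zero
  rw [eq_div_iff this]
  have e2 : -v * Complex.I = -(Complex.I * v) := by ring
  have e3 : v * Complex.I = Complex.I * v := by ring
  rw [e2, e3]
  linear_combination (Complex.exp (-(Complex.I * v)) - Complex.exp (Complex.I * v)) * Complex.I_sq

theorem sin_ne_of_EE {w : ℂ} (h : EE w ≠ 0) : Complex.sin (π * w) ≠ 0 := by
  intro h0
  rw [Complex.sin_eq_zero_iff] at h0
  obtain ⟨n, hn⟩ := h0
  apply h
  have : w = n := by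
    have hp : (π : ℂ) ≠ 0 := by exact_mod_cast Real.pi_ne_zero
    apply mul_left_cancel₀ hp
    rw [hn]; ring
  rw [this]
  unfold EE
  rw [ee_int, sub_self]

theorem kid (z w : ℂ) (h : EE w ≠ 0) :
    Complex.sin (π * (z - w)) * kk w = (Complex.sin (π * z) / Complex.sin (π * w) -
      Complex.exp (Complex.I * (π * (z - w)))) / (2 * Complex.I) := by
  have h0 := sin_ne_of_EE h
  have e1 : Complex.exp (Complex.I * (π * (z - w))) =
      Complex.exp (Complex.I * (π * z)) / Complex.exp (Complex.I * (π * w)) := by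
    rw [← Complex.exp_sub]; congr 1; ring
  have e2 : ee w = Complex.exp (Complex.I * (π * w)) ^ 2 := by
    unfold ee
    rw [← Complex.exp_nat_mul]; congr 1; push_cast; ring
  rw [sin_exp, sin_exp (π * z)]
  rw [sin_exp (π * w)] at h0 ⊢
  unfold kk
  unfold EE at h ⊢
  rw [e1, e2]
  rw [e2] at h
  have hp := Complex.exp_ne_zero (Complex.I * (π * z))
  have hq := Complex.exp_ne_zero (Complex.I * (π * w))
  generalize Complex.exp (Complex.I * (π * z)) = p at *
  generalize Complex.exp (Complex.I * (π * w)) = q at *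
  have hI : Complex.I ≠ 0 := Complex.I_ne_zero
  have h3 : q - q⁻¹ = (q ^ 2 - 1) / q := by field_simp
  rw [h3]
  field_simp
  ring

/-- the kernel of the remainder -/
noncomputable def RK (N : ℕ) (z w : ℂ) : ℂ :=
  Complex.sin (π * z) / (2 * Complex.I * N * Complex.sin (π * (z - w) / N) * Complex.sin (π * w))

theorem sinN_zero {N : ℕ} (hN : 0 < N) {z w : ℂ} (h1 : |(z - w).re| < N)
    (h : Complex.sin (π * (z - w) / N) = 0) : w = z := by
  rw [Complex.sin_eq_zero_iff] at h
  obtain ⟨n, hn⟩ := h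
  have hp : (π : ℂ) ≠ 0 := by exact_mod_cast Real.pi_ne_zero
  have hN' : (N : ℂ) ≠ 0 := by exact_mod_cast hN.ne'
  have h2 : z - w = n * N := by
    rw [div_eq_iff hN'] at hn
    apply mul_left_cancel₀ hp
    rw [hn]; ring
  have h3 := congrArg Complex.re h2
  have h4 : ((n : ℂ) * (N : ℂ)).re = (n : ℝ) * N := by
    have : ((n : ℂ) * (N : ℂ)) = (((n : ℝ) * N : ℝ) : ℂ) := by push_cast; ring
    rw [this, Complex.ofReal_re]
  rw [h4] at h3
  rw [h3, abs_mul, Nat.abs_cast] at h1
  have hNpos : (0 : ℝ) < N := by exact_mod_cast hN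
  have h5 : |(n : ℝ)| < 1 := by
    by_contra hcon
    have := mul_le_mul_of_nonneg_right (not_lt.1 hcon) hNpos.le
    linarith
  have h6 : n = 0 := by
    have : |n| < 1 := by exact_mod_cast h5
    exact Int.abs_lt_one_iff.1 this
  rw [h6] at h2
  have : z - w = 0 := by rw [h2]; simp
  exact (sub_eq_zero.1 this).symm

/-- interpolation at the integers by a boundary integral -/
theorem interp_contour {B : ℂ → ℂ} {V : Set ℂ} (hV : IsOpen V) (hB : DifferentiableOn ℂ B V)
    {N a b : ℕ} (hN : 0 < N) (hab : a < b) (hbN : b ≤ N) {H : ℝ} (hH : 0 < H)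
    (hK : ∀ x y : ℝ, (a : ℝ) - 1 / 2 ≤ x → x ≤ b - 1 / 2 → |y| ≤ H → (x : ℂ) + y * Complex.I ∈ V)
    {z : ℂ} (hz1 : (a : ℝ) - 1 / 2 < z.re) (hz2 : z.re < b - 1 / 2) (hz3 : |z.im| < H) :
    1 / N * ∑ j ∈ Finset.Ico a b, B j * DN N (2 * π / N * (z - j)) =
      B z + rect (fun w => B w * RK N z w) (a - 1 / 2) (b - 1 / 2) (-H) H := by
  have hN' : (N : ℂ) ≠ 0 := by exact_mod_cast hN.ne'
  have hp : (π : ℂ) ≠ 0 := by exact_mod_cast Real.pi_ne_zero
  have hI : Complex.I ≠ 0 := Complex.I_ne_zero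
  have habR : (a : ℝ) < b := by exact_mod_cast hab
  have hbNR : (b : ℝ) ≤ N := by exact_mod_cast hbN
  have ha0 : (0 : ℝ) ≤ a := Nat.cast_nonneg a
  have hz3' := abs_lt.1 hz3
  set f : ℂ → ℂ := fun w => B w * DN N (2 * π / N * (z - w)) / N with hf
  have hfd : DifferentiableOn ℂ f V := by
    apply DifferentiableOn.div_const
    refine hB.mul ?_
    refine Differentiable.differentiableOn ?_
    exact (DN_diff N).comp (by fun_prop)
  have h1 := sum_rect hV hfd hab.le hH hK
  -- the sine
  set Sg : ℂ → ℂ := fun w => Complex.sin (π * (z - w) / N) with hSg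
  have hSgd : ∀ w, HasDerivAt Sg (-(π / N) * Complex.cos (π * (z - w) / N)) w := by
    intro w
    have h2 : HasDerivAt (fun w : ℂ => (π : ℂ) * (z - w) / N) (-(π / N)) w := by
      have := (((hasDerivAt_id w).const_sub z).const_mul (π : ℂ)).div_const (N : ℂ)
      refine this.congr_deriv ?_
      ring
    have := h2.csin
    refine this.congr_deriv ?_
    ring
  have hSgdiff : Differentiable ℂ Sg := fun w => (hSgd w).differentiableAt
  have hSgz : Sg z = 0 := by simp [hSg]
  have hdS : Differentiable ℂ (dslope Sg z) := by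
    rw [← differentiableOn_univ]
    exact (Complex.differentiableOn_dslope univ_mem).2 hSgdiff.differentiableOn
  have hdSz : dslope Sg z z = -(π / N) := by
    rw [dslope_same, (hSgd z).deriv]; simp
  set W : Set ℂ := V ∩ {w | dslope Sg z w ≠ 0} with hW
  have hWo : IsOpen W := hV.inter (isOpen_ne_fun hdS.continuous continuous_const)
  have hin : ∀ x y : ℝ, (a : ℝ) - 1 / 2 ≤ x → x ≤ b - 1 / 2 → |y| ≤ H →
      (x : ℂ) + y * Complex.I ∈ W := by
    intro x y hx1 hx2 hy
    refine ⟨hK x y hx1 hx2 hy, ?_⟩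
    show dslope Sg z _ ≠ 0
    by_cases hw : (x : ℂ) + y * Complex.I = z
    · rw [hw, hdSz, neg_ne_zero]
      exact div_ne_zero hp hN'
    · rw [dslope_of_ne _ hw, slope_def_field, hSgz, sub_zero]
      apply div_ne_zero _ (sub_ne_zero.2 hw)
      intro h0
      refine hw (sinN_zero hN ?_ h0)
      have : (z - ((x : ℂ) + y * Complex.I)).re = z.re - x := by simp
      rw [this, abs_lt]
      constructor <;> linarith
  -- the analytic factor
  set g : ℂ → ℂ := fun w => -(B w * Complex.exp (Complex.I * (π * (z - w)))) /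
    (2 * Complex.I * N * dslope Sg z w) with hg
  have hgd : DifferentiableOn ℂ g W := by
    apply DifferentiableOn.div
    · refine ((hB.mono inter_subset_left).mul ?_).neg
      exact Differentiable.differentiableOn (by fun_prop)
    · exact (hdS.const_mul _).differentiableOn
    · intro w hw
      exact mul_ne_zero (mul_ne_zero (mul_ne_zero two_ne_zero hI) hN') hw.2
  have hgz : 2 * π * Complex.I * g z = B z := by
    simp only [hg]
    rw [hdSz, sub_self, mul_zero, mul_zero, Complex.exp_zero, mul_one]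
    field_simp
  have hBdz : ∀ w ∈ Bd ((a : ℝ) - 1 / 2) (b - 1 / 2) (-H) H, w ∈ W ∧ w ≠ z ∧ EE w ≠ 0 := by
    intro w hw
    have hE : EE w ≠ 0 := by
      apply EE_Bd (m := (a : ℤ)) (n := (b : ℤ)) hH
      push_cast
      exact hw
    rcases hw with ⟨x, hx, rfl⟩ | ⟨x, hx, rfl⟩ | ⟨y, hy, rfl⟩ | ⟨y, hy, rfl⟩
    · rw [uIcc_of_le (by linarith)] at hx
      refine ⟨hin x _ hx.1 hx.2 (by rw [abs_neg, abs_of_pos hH]), ?_, hE⟩
      intro h
      have := congrArg Complex.im h
      simp at this
      linarith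
    · rw [uIcc_of_le (by linarith)] at hx
      refine ⟨hin x _ hx.1 hx.2 (by rw [abs_of_pos hH]), ?_, hE⟩
      intro h
      have := congrArg Complex.im h
      simp at this
      linarith
    · rw [uIcc_of_le (by linarith)] at hy
      refine ⟨hin _ y (by linarith) le_rfl (abs_le.2 ⟨hy.1, hy.2⟩), ?_, hE⟩
      intro h
      have := congrArg Complex.re h
      simp at this
      linarith
    · rw [uIcc_of_le (by linarith)] at hy
      refine ⟨hin _ y le_rfl (by linarith) (abs_le.2 ⟨hy.1, hy.2⟩), ?_, hE⟩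
      intro h
      have := congrArg Complex.re h
      simp at this
      linarith
  have hsn : ∀ w ∈ Bd ((a : ℝ) - 1 / 2) (b - 1 / 2) (-H) H, Sg w ≠ 0 := by
    intro w hw h0
    obtain ⟨h2, h3, -⟩ := hBdz w hw
    have h4 : dslope Sg z w ≠ 0 := h2.2
    rw [dslope_of_ne _ h3, slope_def_field, h0, hSgz] at h4
    simp at h4
  have h2 : rect (fun w => f w * kk w) (a - 1 / 2) (b - 1 / 2) (-H) H =
      rect (fun w => B w * RK N z w + (w - z)⁻¹ * g w) (a - 1 / 2) (b - 1 / 2) (-H) H := by
    apply rect_congr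
    intro w hw
    obtain ⟨h3, h4, h5⟩ := hBdz w hw
    have h6 := sin_ne_of_EE h5
    have h7 := hsn w hw
    have h8 := kid z w h5
    have h9 := DN_sin hN (2 * π / N * (z - w))
    have e1 : 2 * π / N * (z - w) / 2 = π * (z - w) / N := by ring
    have e2 : N * (2 * π / N * (z - w)) / 2 = π * (z - w) := by field_simp
    rw [e1, e2] at h9
    have h10 : DN N (2 * π / N * (z - w)) * kk w = (Complex.sin (π * z) / Complex.sin (π * w) -
      Complex.exp (Complex.I * (π * (z - w)))) / (2 * Complex.I) / Sg w := by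
      rw [← h8, ← h9, eq_div_iff h7]
      simp only [hSg]
      ring
    have h11 : w - z ≠ 0 := sub_ne_zero.2 h4
    have h12 : dslope Sg z w = Sg w / (w - z) := by
      rw [dslope_of_ne _ h4, slope_def_field, hSgz, sub_zero]
    have h13 : f w * kk w = B w / N * (DN N (2 * π / N * (z - w)) * kk w) := by
      simp only [hf]; ring
    have h14 : Complex.sin (π * (z - w) / N) = Sg w := rfl
    show f w * kk w = B w * RK N z w + (w - z)⁻¹ * g w
    rw [h13, h10]
    simp only [hg]
    rw [h12]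
    unfold RK
    rw [h14]
    field_simp
    ring
  have hR1 : RI (fun w => B w * RK N z w) (a - 1 / 2) (b - 1 / 2) (-H) H := by
    apply RI_of_cont
    intro w hw
    obtain ⟨h3, h4, h5⟩ := hBdz w hw
    refine (hB.continuousOn.continuousAt (hV.mem_nhds h3.1)).mul ?_
    unfold RK
    refine ContinuousAt.div continuousAt_const (by fun_prop) ?_
    exact mul_ne_zero (mul_ne_zero (mul_ne_zero (mul_ne_zero two_ne_zero hI) hN') (hsn w hw))
      (sin_ne_of_EE h5)
  have hR2 : RI (fun w => (w - z)⁻¹ * g w) (a - 1 / 2) (b - 1 / 2) (-H) H := by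
    apply RI_of_cont
    intro w hw
    obtain ⟨h3, h4, h5⟩ := hBdz w hw
    refine ContinuousAt.mul (ContinuousAt.inv₀ (by fun_prop) (sub_ne_zero.2 h4)) ?_
    exact hgd.continuousOn.continuousAt (hWo.mem_nhds h3)
  have h3 : rect (fun w => (w - z)⁻¹ * g w) (a - 1 / 2) (b - 1 / 2) (-H) H = B z := by
    have hsub : Icc ((a : ℝ) - 1 / 2) (b - 1 / 2) ×ℂ Icc (-H) H ⊆ W := by
      intro w hw
      rw [Complex.mem_reProdIm] at hw
      have := hin w.re w.im hw.1.1 hw.1.2 (abs_le.2 ⟨hw.2.1, hw.2.2⟩)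
      rwa [Complex.re_add_im] at this
    have hsub2 : Ioo ((a : ℝ) - 1 / 2) (b - 1 / 2) ×ℂ Ioo (-H) H ⊆ W :=
      Subset.trans (Complex.reProdIm_subset_iff.2
        (prod_mono Ioo_subset_Icc_self Ioo_subset_Icc_self)) hsub
    have h4 := Pool.Agent.Y288.VG.cauchy_rect (α := (a : ℝ) - 1 / 2) (β := b - 1 / 2) (γ := -H)
      (δ := H) (by linarith) (by linarith) (f := g) (hgd.continuousOn.mono hsub)
      (hgd.mono hsub2) (x := z) (by
        rw [Complex.mem_reProdIm]
        exact ⟨⟨hz1, hz2⟩, hz3'.1, hz3'.2⟩)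
    rw [smul_eq_mul, hgz] at h4
    rw [← h4]
    rfl
  rw [rect_add hR1 hR2, h3] at h2
  have h5 : 1 / N * ∑ j ∈ Finset.Ico a b, B j * DN N (2 * π / N * (z - j)) =
      ∑ d ∈ Finset.Ico a b, f d := by
    rw [Finset.mul_sum]
    refine Finset.sum_congr rfl fun j _ => ?_
    simp only [hf]
    ring
  rw [h5, h1, h2]
  ring

end Pool.Agent.Y232.CG
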