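import Mathlib

/-!
# Trigonometric interpolation at equidistant nodes
-/

set_option autoImplicit false

namespace Pool.Agent.Y232.CG

open Finset
open scoped Real

/-- `e^{i (m - D / 2) x}` -/
noncomputable def fq (D m : ℕ) (x : ℂ) : ℂ :=
  Complex.exp (Complex.I * ((m : ℂ) - (D : ℂ) / 2) * x)

/-- trigonometric polynomials of degree at most `D / 2` -/
noncomputable def TP (D : ℕ) : Submodule ℂ (ℂ → ℂ) :=
  Submodule.span ℂ {g | ∃ m ≤ D, g = fq D m}

theorem fq_mem {D m : ℕ} (h : m ≤ D) : fq D m ∈ TP D := Submodule.subset_span ⟨m, h, rfl⟩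

theorem TP_const (a : ℂ) : (fun _ => a) ∈ TP 0 := by
  have h := Submodule.smul_mem (TP 0) a (fq_mem (le_refl 0))
  have e : a • fq 0 0 = fun _ => a := by
    funext x
    simp [fq]
  rwa [e] at h

theorem TP_cos {D : ℕ} {F : ℂ → ℂ} (hF : F ∈ TP D) (a : ℂ) :
    (fun x => F x * Complex.cos ((x - a) / 2)) ∈ TP (D + 1) := by
  refine Submodule.span_induction
    (p := fun F _ => (fun x => F x * Complex.cos ((x - a) / 2)) ∈ TP (D + 1)) ?_ ?_ ?_ ?_ hF
  · rintro _ ⟨m, hm, rfl⟩
    have h1 := Submodule.smul_mem (TP (D + 1)) (Complex.exp (-(Complex.I * a / 2)) / 2)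
      (fq_mem (show m + 1 ≤ D + 1 by omega))
    have h2 := Submodule.smul_mem (TP (D + 1)) (Complex.exp (Complex.I * a / 2) / 2)
      (fq_mem (show m ≤ D + 1 by omega))
    have e : (fun x => fq D m x * Complex.cos ((x - a) / 2)) =
        (Complex.exp (-(Complex.I * a / 2)) / 2) • fq (D + 1) (m + 1) +
          (Complex.exp (Complex.I * a / 2) / 2) • fq (D + 1) m := by
      funext x
      simp only [Pi.add_apply, Pi.smul_apply, smul_eq_mul, Complex.cos]
      have e1 : fq D m x * Complex.exp ((x - a) / 2 * Complex.I) =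
          Complex.exp (-(Complex.I * a / 2)) * fq (D + 1) (m + 1) x := by
        unfold fq
        rw [← Complex.exp_add, ← Complex.exp_add]
        congr 1; push_cast; ring
      have e2 : fq D m x * Complex.exp (-((x - a) / 2) * Complex.I) =
          Complex.exp (Complex.I * a / 2) * fq (D + 1) m x := by
        unfold fq
        rw [← Complex.exp_add, ← Complex.exp_add]
        congr 1; push_cast; ring
      linear_combination (e1 + e2) / 2
    rw [e]
    exact Submodule.add_mem _ h1 h2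
  · have e : (fun x => (0 : ℂ → ℂ) x * Complex.cos ((x - a) / 2)) = 0 := by funext x; simp
    rw [e]; exact Submodule.zero_mem _
  · intro F G _ _ hF hG
    have e : (fun x => (F + G) x * Complex.cos ((x - a) / 2)) =
        (fun x => F x * Complex.cos ((x - a) / 2)) + fun x => G x * Complex.cos ((x - a) / 2) := by
      funext x; simp [add_mul]
    rw [e]; exact Submodule.add_mem _ hF hG
  · intro c F _ hF
    have e : (fun x => (c • F) x * Complex.cos ((x - a) / 2)) =
        c • fun x => F x * Complex.cos ((x - a) / 2) := by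
      funext x; simp [mul_assoc]
    rw [e]; exact Submodule.smul_mem _ _ hF

theorem TP_two {D : ℕ} {F : ℂ → ℂ} (hF : F ∈ TP D) : F ∈ TP (D + 2) := by
  refine Submodule.span_induction (p := fun F _ => F ∈ TP (D + 2)) ?_ ?_ ?_ ?_ hF
  · rintro _ ⟨m, hm, rfl⟩
    have h1 := fq_mem (show m + 1 ≤ D + 2 by omega)
    have e : fq (D + 2) (m + 1) = fq D m := by
      funext x
      unfold fq
      congr 1; push_cast; ring
    rwa [e] at h1
  · exact Submodule.zero_mem _
  · intro F G _ _ hF hG; exact Submodule.add_mem _ hF hG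
  · intro c F _ hF; exact Submodule.smul_mem _ _ hF

theorem TP_mono {d n : ℕ} (h : d ≤ n) {F : ℂ → ℂ} (hF : F ∈ TP (2 * d)) : F ∈ TP (2 * n) := by
  induction n, h using Nat.le_induction with
  | base => exact hF
  | succ n _ ih => exact TP_two ih

/-- multiplication by `2 cos x + 2 cos φ` -/
theorem TP_mul {D : ℕ} {F : ℂ → ℂ} (hF : F ∈ TP D) (φ : ℂ) :
    (fun x => F x * (2 * Complex.cos x + 2 * Complex.cos φ)) ∈ TP (D + 2) := by
  have h := Submodule.smul_mem (TP (D + 2)) 4 (TP_cos (TP_cos hF (-φ)) φ)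
  have e : (4 : ℂ) • (fun x => F x * Complex.cos ((x - -φ) / 2) * Complex.cos ((x - φ) / 2)) =
      fun x => F x * (2 * Complex.cos x + 2 * Complex.cos φ) := by
    funext x
    simp only [Pi.smul_apply, smul_eq_mul]
    have e1 : Complex.cos x = Complex.cos ((x - -φ) / 2 + (x - φ) / 2) := by congr 1; ring
    have e2 : Complex.cos φ = Complex.cos ((x - -φ) / 2 - (x - φ) / 2) := by congr 1; ring
    rw [e1, e2, Complex.cos_add, Complex.cos_sub]
    ring
  rwa [e] at h

/-- the Dirichlet kernel -/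
noncomputable def DN (N : ℕ) (u : ℂ) : ℂ := ∑ l ∈ range N, fq (N - 1) l u

/-- the nodes -/
noncomputable def nd (N : ℕ) (w : ℂ) : ℂ := π * (2 * w + 1 - N) / N

/-- the functions given by interpolation -/
def Rep (N : ℕ) (F : ℂ → ℂ) : Prop :=
  ∀ z, F z = 1 / N * ∑ j ∈ range N, F (nd N j) * DN N (z - nd N j)

theorem fq_sum {N : ℕ} (hN : 0 < N) {m l : ℕ} (hm : m < N) (hl : l < N) :
    ∑ j ∈ range N, fq (N - 1) m (nd N j) * fq (N - 1) l (-nd N j) = if l = m then (N : ℂ) else 0 := by
  have hN' : (N : ℂ) ≠ 0 := by exact_mod_cast hN.ne'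
  have e : ∀ j ∈ range N, fq (N - 1) m (nd N j) * fq (N - 1) l (-nd N j) =
      Complex.exp (Complex.I * ((m : ℂ) - l) * (π * (1 - N) / N)) *
        (Complex.exp (2 * π * Complex.I * ((m : ℤ) - l : ℤ) / N)) ^ j := by
    intro j _
    unfold fq nd
    rw [← Complex.exp_add, ← Complex.exp_nat_mul, ← Complex.exp_add]
    congr 1
    push_cast
    field_simp
    ring
  rw [sum_congr rfl e, ← mul_sum]
  by_cases hml : l = m
  · subst hml
    rw [if_pos rfl]
    simp
  · rw [if_neg hml]
    have h1 : Complex.exp (2 * π * Complex.I * ((m : ℤ) - l : ℤ) / N) ≠ 1 := by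
      intro h
      rw [Complex.exp_eq_one_iff] at h
      obtain ⟨n, hn⟩ := h
      have h2 : ((((m : ℤ) - l : ℤ)) : ℂ) = n * N := by
        have h3 : (2 * π * Complex.I : ℂ) ≠ 0 := Complex.two_pi_I_ne_zero
        have h4 : (2 * π * Complex.I : ℂ) * (((m : ℤ) - l : ℤ) : ℂ) = 2 * π * Complex.I * (n * N) := by
          field_simp at hn
          linear_combination (2 * π * Complex.I : ℂ) * hn
        exact mul_left_cancel₀ h3 h4
      have h5 : ((m : ℤ) - l : ℤ) = n * N := by exact_mod_cast h2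
      rcases lt_trichotomy n 0 with h6 | h6 | h6
      · have : n * (N : ℤ) ≤ (-1) * N := mul_le_mul_of_nonneg_right (by omega) (by positivity)
        omega
      · rw [h6] at h5; omega
      · have : (1 : ℤ) * N ≤ n * N := mul_le_mul_of_nonneg_right (by omega) (by positivity)
        omega
    have h2 : (Complex.exp (2 * π * Complex.I * ((m : ℤ) - l : ℤ) / N)) ^ N = 1 := by
      rw [← Complex.exp_nat_mul, Complex.exp_eq_one_iff]
      refine ⟨(m : ℤ) - l, ?_⟩
      push_cast
      field_simp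
    rw [geom_sum_eq h1, h2]
    simp

theorem rep_fq {N : ℕ} (hN : 0 < N) {m : ℕ} (hm : m < N) : Rep N (fq (N - 1) m) := by
  intro z
  have hN' : (N : ℂ) ≠ 0 := by exact_mod_cast hN.ne'
  have e : ∀ (l j : ℕ), fq (N - 1) l (z - nd N j) = fq (N - 1) l z * fq (N - 1) l (-nd N j) := by
    intro l j
    unfold fq
    rw [← Complex.exp_add]
    congr 1
    ring
  have h1 : ∑ j ∈ range N, fq (N - 1) m (nd N j) * DN N (z - nd N j) =
      ∑ l ∈ range N, fq (N - 1) l z *
        ∑ j ∈ range N, fq (N - 1) m (nd N j) * fq (N - 1) l (-nd N j) := by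
    unfold DN
    simp only [mul_sum, e]
    rw [sum_comm]
    refine sum_congr rfl fun l _ => sum_congr rfl fun j _ => ?_
    ring
  rw [h1, sum_congr rfl fun l hl => by rw [fq_sum hN hm (mem_range.1 hl)]]
  simp only [mul_ite, mul_zero]
  rw [sum_ite_eq' (range N) m, if_pos (mem_range.2 hm)]
  field_simp

theorem rep_of_TP {N : ℕ} (hN : 0 < N) {F : ℂ → ℂ} (hF : F ∈ TP (N - 1)) : Rep N F := by
  refine Submodule.span_induction (p := fun F _ => Rep N F) ?_ ?_ ?_ ?_ hF
  · rintro _ ⟨m, hm, rfl⟩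
    exact rep_fq hN (by omega)
  · intro z; simp
  · intro F G _ _ hF hG z
    rw [Pi.add_apply, hF z, hG z, ← mul_add, ← sum_add_distrib]
    congr 1
    refine sum_congr rfl fun j _ => ?_
    rw [Pi.add_apply]; ring
  · intro c F _ hF z
    rw [Pi.smul_apply, hF z, smul_eq_mul, mul_left_comm, mul_sum]
    congr 1
    refine sum_congr rfl fun j _ => ?_
    rw [Pi.smul_apply, smul_eq_mul]; ring

theorem DN_sin {N : ℕ} (hN : 0 < N) (u : ℂ) :
    DN N u * Complex.sin (u / 2) = Complex.sin (N * u / 2) := by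
  have e : ∀ l ∈ range N, fq (N - 1) l u =
      Complex.exp (-(Complex.I * ((N : ℂ) - 1) / 2 * u)) * Complex.exp (Complex.I * u) ^ l := by
    intro l _
    unfold fq
    rw [← Complex.exp_nat_mul, ← Complex.exp_add]
    congr 1
    have : ((N - 1 : ℕ) : ℂ) = (N : ℂ) - 1 := by
      rw [Nat.cast_sub (by omega)]; simp
    rw [this]
    ring
  have h1 := mul_geom_sum (Complex.exp (Complex.I * u)) N
  have hs : ∀ v : ℂ, Complex.sin v = (Complex.exp (Complex.I * v) - Complex.exp (-(Complex.I * v))) /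
      (2 * Complex.I) := by
    intro v
    rw [Complex.sin]
    have : (2 * Complex.I) ≠ 0 := mul_ne_zero two_ne_zero Complex.I_ne_zero
    rw [eq_div_iff this]
    have e2 : -v * Complex.I = -(Complex.I * v) := by ring
    have e3 : v * Complex.I = Complex.I * v := by ring
    rw [e2, e3]
    linear_combination (Complex.exp (-(Complex.I * v)) - Complex.exp (Complex.I * v)) * Complex.I_sq
  unfold DN
  rw [sum_congr rfl e, ← mul_sum, hs, hs]
  have a1 : Complex.exp (Complex.I * (u / 2)) - Complex.exp (-(Complex.I * (u / 2))) =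
      Complex.exp (-(Complex.I * (u / 2))) * (Complex.exp (Complex.I * u) - 1) := by
    rw [mul_sub, mul_one, ← Complex.exp_add]
    congr 2; ring
  have a2 : Complex.exp (Complex.I * (N * u / 2)) - Complex.exp (-(Complex.I * (N * u / 2))) =
      Complex.exp (-(Complex.I * ((N : ℂ) - 1) / 2 * u)) * Complex.exp (-(Complex.I * (u / 2))) *
        (Complex.exp (Complex.I * u) ^ N - 1) := by
    rw [mul_sub, mul_one, ← Complex.exp_nat_mul, ← Complex.exp_add, ← Complex.exp_add]
    congr 2 <;> ring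
  rw [a1, a2, ← h1]
  ring

theorem norm_fq_le {N l : ℕ} (hN : 0 < N) (hl : l < N) (u : ℂ) :
    ‖fq (N - 1) l u‖ ≤ Real.exp (N * |u.im| / 2) := by
  unfold fq
  rw [Complex.norm_exp]
  refine Real.exp_le_exp.2 ?_
  have e : (Complex.I * ((l : ℂ) - ((N - 1 : ℕ) : ℂ) / 2) * u).re =
      -(((l : ℝ) - ((N - 1 : ℕ) : ℝ) / 2) * u.im) := by
    have : Complex.I * ((l : ℂ) - ((N - 1 : ℕ) : ℂ) / 2) * u =
        (((l : ℝ) - ((N - 1 : ℕ) : ℝ) / 2 : ℝ) : ℂ) * (Complex.I * u) := by
      push_cast; ring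
    rw [this, Complex.re_ofReal_mul]
    simp
  rw [e]
  have h1 : |(l : ℝ) - ((N - 1 : ℕ) : ℝ) / 2| ≤ N / 2 := by
    have h2 : (l : ℝ) ≤ ((N - 1 : ℕ) : ℝ) := by
      have : l ≤ N - 1 := by omega
      exact_mod_cast this
    have h3 : ((N - 1 : ℕ) : ℝ) ≤ N := by
      have : N - 1 ≤ N := by omega
      exact_mod_cast this
    have h4 : (0 : ℝ) ≤ l := Nat.cast_nonneg l
    rw [abs_le]
    constructor <;> linarith
  calc -(((l : ℝ) - ((N - 1 : ℕ) : ℝ) / 2) * u.im) ≤ |((l : ℝ) - ((N - 1 : ℕ) : ℝ) / 2) * u.im| :=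
        neg_le_abs _
    _ = |(l : ℝ) - ((N - 1 : ℕ) : ℝ) / 2| * |u.im| := abs_mul _ _
    _ ≤ N / 2 * |u.im| := mul_le_mul_of_nonneg_right h1 (abs_nonneg _)
    _ = N * |u.im| / 2 := by ring

theorem norm_DN_le {N : ℕ} (hN : 0 < N) (u : ℂ) :
    ‖DN N u‖ ≤ N * Real.exp (N * |u.im| / 2) := by
  unfold DN
  refine (norm_sum_le _ _).trans ?_
  refine (sum_le_sum fun l hl => norm_fq_le hN (mem_range.1 hl) u).trans ?_
  rw [sum_const, card_range, nsmul_eq_mul]

theorem fq_diff (D m : ℕ) : Differentiable ℂ (fq D m) := by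
  unfold fq
  fun_prop

theorem DN_diff (N : ℕ) : Differentiable ℂ (DN N) := by
  unfold DN
  exact Differentiable.fun_sum fun l _ => fq_diff _ _

end Pool.Agent.Y232.CG
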